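import Pool.Agent.Y508.TN.Full
import Pool.Agent.H339R3.CN4

/-! The Cantor set has lower box dimension less than one. -/

set_option autoImplicit false
set_option linter.all false

namespace Pool.Agent.Y508.TN

open MeasureTheory Set Filter Topology Metric
open Pool.Agent.H339R3.CN (nu tern cantorMap cantorMap_eq cantorMeasure cantorMeasure_apply
  cantorMap_injective nu_two_singleton)

/-- extension of a prefix by zeros -/
def extz {m : ℕ} (u : Fin m → Fin 2) : ℕ → Fin 2 := fun i => if h : i < m then u ⟨i, h⟩ else 0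

noncomputable def cbox (l : ℕ) (q : (Fin (2 * l) → Fin 2) × Fin 2) : ℤ :=
  ⌊(2 : ℝ) ^ (3 * l) * ∑ i ∈ Finset.range (2 * l), Real.ofDigitsTerm (tern (extz q.1)) i⌋ +
    ((q.2 : ℕ) : ℤ)

theorem boxes_cantor (l : ℕ) : boxes (range cantorMap) (3 * l) ⊆ range (cbox l) := by
  rintro _ ⟨_, ⟨d, rfl⟩, rfl⟩
  let u : Fin (2 * l) → Fin 2 := fun i => d i
  have h1 : ∑ i ∈ Finset.range (2 * l), Real.ofDigitsTerm (tern (extz u)) i =
      ∑ i ∈ Finset.range (2 * l), Real.ofDigitsTerm (tern d) i := by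
    refine Finset.sum_congr rfl fun i hi => ?_
    have h2 : extz u i = d i := by
      unfold extz
      rw [dif_pos (Finset.mem_range.1 hi)]
    unfold Real.ofDigitsTerm tern
    rw [h2]
  have h3 := Real.ofDigits_eq_sum_add_ofDigits (tern d) (2 * l)
  set S := ∑ i ∈ Finset.range (2 * l), Real.ofDigitsTerm (tern d) i with hS
  set R := Real.ofDigits (fun i => tern d (i + 2 * l)) with hR
  have r0 : 0 ≤ R := Real.ofDigits_nonneg _
  have r1 : R ≤ 1 := Real.ofDigits_le_one _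
  have h4 : (2 : ℝ) ^ (3 * l) * cantorMap d = 2 ^ (3 * l) * S + (8 / 9) ^ l * R := by
    rw [cantorMap_eq, h3, mul_add]
    congr 1
    rw [← mul_assoc]
    congr 1
    rw [pow_mul, pow_mul, div_pow]
    norm_num
    rfl
  have h5 : ((8 : ℝ) / 9) ^ l ≤ 1 := pow_le_one₀ (by norm_num) (by norm_num)
  have h6 : (0 : ℝ) ≤ (8 / 9) ^ l := by positivity
  have h7 : (8 / 9 : ℝ) ^ l * R ≤ 1 := by nlinarith
  have h8 : (0 : ℝ) ≤ (8 / 9 : ℝ) ^ l * R := by positivity
  have f1 := Int.floor_le ((2 : ℝ) ^ (3 * l) * S)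
  have f2 := Int.lt_floor_add_one ((2 : ℝ) ^ (3 * l) * S)
  have f3 := Int.floor_le ((2 : ℝ) ^ (3 * l) * cantorMap d)
  have f4 := Int.lt_floor_add_one ((2 : ℝ) ^ (3 * l) * cantorMap d)
  show ⌊(2 : ℝ) ^ (3 * l) * cantorMap d⌋ ∈ range (cbox l)
  set A := ⌊(2 : ℝ) ^ (3 * l) * S⌋ with hA
  set B := ⌊(2 : ℝ) ^ (3 * l) * cantorMap d⌋ with hB
  have g1 : (A : ℝ) < B + 1 := by linarith
  have g2 : (B : ℝ) < A + 2 := by linarith
  have g1' : A < B + 1 := by exact_mod_cast g1
  have g2' : B < A + 2 := by exact_mod_cast g2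
  have g3 : B = A ∨ B = A + 1 := by omega
  rcases g3 with g | g
  · refine ⟨(u, 0), ?_⟩
    unfold cbox
    rw [h1, ← hA, g]
    simp
  · refine ⟨(u, 1), ?_⟩
    unfold cbox
    rw [h1, ← hA, g]
    simp

theorem low_cantor : Low (range cantorMap) := by
  refine ⟨3 / 4, by norm_num, ?_⟩
  rw [Filter.frequently_atTop]
  intro n₀
  refine ⟨3 * (n₀ + 4), by omega, (Set.finite_range _).subset (boxes_cantor _), ?_⟩
  have h1 := Set.ncard_le_ncard (boxes_cantor (n₀ + 4)) (Set.finite_range _)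
  have h2 : (range (cbox (n₀ + 4))).ncard ≤ 2 ^ (2 * (n₀ + 4)) * 2 := by
    rw [← Set.image_univ]
    refine (Set.ncard_image_le Set.finite_univ).trans ?_
    rw [Set.ncard_univ, Nat.card_eq_fintype_card]
    simp
  have h3 : ((boxes (range cantorMap) (3 * (n₀ + 4))).ncard : ℝ) ≤ 2 ^ (2 * (n₀ + 4) + 1) := by
    rw [pow_succ]
    exact_mod_cast h1.trans h2
  refine h3.trans ?_
  rw [← Real.rpow_natCast]
  apply Real.rpow_le_rpow_of_exponent_le (by norm_num)
  push_cast
  have : (0 : ℝ) ≤ n₀ := Nat.cast_nonneg _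
  linarith

theorem cantor_conc : cantorMeasure (range cantorMap)ᶜ = 0 := by
  rw [cantorMeasure_apply]
  have : cantorMap ⁻¹' (range cantorMap)ᶜ = ∅ := by
    ext x
    simp
  rw [this, measure_empty]

theorem cantor_noatoms (x : ℝ) : cantorMeasure {x} = 0 := by
  rw [cantorMeasure_apply]
  by_cases h : ∃ d, cantorMap d = x
  · obtain ⟨d, rfl⟩ := h
    have : cantorMap ⁻¹' {cantorMap d} = {d} := by
      ext y
      exact ⟨fun h => cantorMap_injective h, fun h => by rw [h]; rfl⟩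
    rw [this]
    exact nu_two_singleton d
  · have : cantorMap ⁻¹' {x} = ∅ := by
      rw [eq_empty_iff_forall_notMem]
      intro y hy
      exact h ⟨y, hy⟩
    rw [this, measure_empty]

end Pool.Agent.Y508.TN
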