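import Pool.Agent.Y508.TN.Cases

/-! Sets of lower box dimension less than one: the translates are a small family. -/

set_option autoImplicit false
set_option linter.all false

namespace Pool.Agent.Y508.TN

open MeasureTheory Set Cardinal
open Pool.Agent.H339R3.CN (nu nu_cylinder ext_cyl mp_ofDigits mp_digits)

/-- the integer given by the first `n` binary digits -/
def J : ℕ → Om → ℕ
  | 0, _ => 0
  | n + 1, x => 2 * J n x + (x n : ℕ)

theorem J_inj (n : ℕ) (x y : Om) (h : J n x = J n y) : ∀ i < n, x i = y i := by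
  induction n with
  | zero => intro i hi; omega
  | succ n ih =>
    have h1 : 2 * J n x + (x n : ℕ) = 2 * J n y + (y n : ℕ) := h
    have h2 := (x n).2
    have h3 := (y n).2
    intro i hi
    rcases Nat.lt_succ_iff_lt_or_eq.1 hi with h4 | h4
    · exact ih (by omega) i h4
    · rw [h4]
      exact Fin.ext (by omega)

theorem J_sum (n : ℕ) (x : Om) :
    (J n x : ℝ) = 2 ^ n * ∑ i ∈ Finset.range n, Real.ofDigitsTerm x i := by
  induction n with
  | zero => simp [J]
  | succ n ih =>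
    rw [Finset.sum_range_succ, mul_add, pow_succ, mul_right_comm, ← ih]
    show ((2 * J n x + (x n : ℕ) : ℕ) : ℝ) = _
    unfold Real.ofDigitsTerm
    push_cast
    field_simp
    ring

theorem J_scaled (n : ℕ) (x : Om) : ∃ q : ℝ, 0 ≤ q ∧ q ≤ 1 ∧ 2 ^ n * Real.ofDigits x = J n x + q := by
  refine ⟨Real.ofDigits (fun i => x (i + n)), Real.ofDigits_nonneg _, Real.ofDigits_le_one _, ?_⟩
  rw [Real.ofDigits_eq_sum_add_ofDigits x n, J_sum, mul_add]
  congr 1
  push_cast
  rw [← mul_assoc, mul_inv_cancel₀ (by positivity), one_mul]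

/-- the dyadic intervals of length `2 ^ (-n)` which meet `K` -/
def boxes (K : Set ℝ) (n : ℕ) : Set ℤ := (fun x : ℝ => ⌊2 ^ n * x⌋) '' K

/-- the sequences which represent elements of the translate `K + t` -/
def AA (K : Set ℝ) (t : ℝ) : Set Om := {x | Real.ofDigits x - t ∈ K}

theorem small_AA (K : Set ℝ) (hK : K ⊆ Ico 0 1) (n a : ℕ) (han : a ≤ n) (S : Finset ℤ)
    (hS : boxes K n ⊆ S) : Small (AA K) a (n - a) (2 ^ (n + 2)) (3 * S.card) := by
  classical
  -- the words which belong to the index `i`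
  let V : ℤ → Finset (Fin (n - a) → Fin 2) := fun i => Finset.univ.filter fun v =>
    ∃ x : Om, word a (n - a) x = v ∧ ∃ e ∈ ({-1, 0, 1} : Finset ℤ), ∃ c ∈ S, (J n x : ℤ) = c + e + i
  have hV : ∀ i, (V i).card ≤ 3 * S.card := by
    intro i
    have h1 : ∀ v ∈ V i, ∃ x : Om, word a (n - a) x = v ∧
        ∃ e ∈ ({-1, 0, 1} : Finset ℤ), ∃ c ∈ S, (J n x : ℤ) = c + e + i := by
      intro v hv
      exact (Finset.mem_filter.1 hv).2
    choose! x hx1 hx2 using h1
    have h2 : (V i).card ≤ ((S ×ˢ ({-1, 0, 1} : Finset ℤ)).image fun q => q.1 + q.2 + i).card := by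
      refine Finset.card_le_card_of_injOn (fun v => (J n (x v) : ℤ)) ?_ ?_
      · intro v hv
        obtain ⟨e, he, c, hc, h⟩ := hx2 v hv
        show (J n (x v) : ℤ) ∈ (((S ×ˢ ({-1, 0, 1} : Finset ℤ)).image fun q => q.1 + q.2 + i :
          Finset ℤ) : Set ℤ)
        rw [Finset.mem_coe, Finset.mem_image]
        exact ⟨(c, e), Finset.mem_product.2 ⟨hc, he⟩, h.symm⟩
      · intro v hv v' hv' h
        have h' : (J n (x v) : ℤ) = J n (x v') := h
        have h3 : J n (x v) = J n (x v') := by exact_mod_cast h'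
        have h4 := J_inj n _ _ h3
        rw [← hx1 v hv, ← hx1 v' hv']
        funext b
        exact h4 _ (by have := b.2; omega)
    refine h2.trans (Finset.card_image_le.trans ?_)
    rw [Finset.card_product]
    have h5 : ({-1, 0, 1} : Finset ℤ).card = 3 := by decide
    rw [h5, mul_comm]
  refine ⟨fun i => V ((i : ℤ) - 2 ^ n), fun i => hV _, fun t => ?_⟩
  by_cases hne : (AA K t).Nonempty
  · obtain ⟨x₀, hx₀⟩ := hne
    have b1 := hK hx₀
    have b2 := Real.ofDigits_nonneg x₀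
    have b3 := Real.ofDigits_le_one x₀
    have c1 : -1 < t := by linarith [b1.2]
    have c2 : t ≤ 1 := by linarith [b1.1]
    set i := ⌊2 ^ n * t⌋ with hi
    have hpos : (0 : ℝ) < 2 ^ n := by positivity
    have d1 : -(2 ^ n : ℤ) ≤ i := by
      rw [hi, Int.le_floor]
      push_cast
      nlinarith
    have d2 : i ≤ (2 ^ n : ℤ) := by
      have : (i : ℝ) ≤ ((2 ^ n : ℤ) : ℝ) := by
        refine (Int.floor_le _).trans ?_
        push_cast
        nlinarith
      exact_mod_cast this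
    have d3 : (i + 2 ^ n).toNat < 2 ^ (n + 2) := by
      zify
      rw [Int.toNat_of_nonneg (by linarith), pow_add]
      have : (0 : ℤ) < 2 ^ n := by positivity
      linarith
    refine ⟨⟨(i + 2 ^ n).toNat, d3⟩, fun x hx => ?_⟩
    have e0 : (((i + 2 ^ n).toNat : ℕ) : ℤ) - 2 ^ n = i := by
      rw [Int.toNat_of_nonneg (by linarith)]
      ring
    show word a (n - a) x ∈ V ((((i + 2 ^ n).toNat : ℕ) : ℤ) - 2 ^ n)
    rw [e0]
    simp only [V]
    rw [Finset.mem_filter]
    refine ⟨Finset.mem_univ _, x, rfl, ?_⟩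
    obtain ⟨q, hq0, hq1, hq⟩ := J_scaled n x
    set c := ⌊2 ^ n * (Real.ofDigits x - t)⌋ with hc
    have hcS : c ∈ S := hS ⟨_, hx, rfl⟩
    have f1 := Int.floor_le (2 ^ n * t)
    have f2 := Int.lt_floor_add_one (2 ^ n * t)
    have f3 := Int.floor_le (2 ^ n * (Real.ofDigits x - t))
    have f4 := Int.lt_floor_add_one (2 ^ n * (Real.ofDigits x - t))
    rw [← hi] at f1 f2
    rw [← hc] at f3 f4
    have f5 : 2 ^ n * Real.ofDigits x = 2 ^ n * t + 2 ^ n * (Real.ofDigits x - t) := by ring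
    have g1 : ((c + i - 1 : ℤ) : ℝ) ≤ (J n x : ℝ) := by
      push_cast
      linarith
    have g2 : (J n x : ℝ) < ((c + i + 2 : ℤ) : ℝ) := by
      push_cast
      linarith
    have g1' : c + i - 1 ≤ (J n x : ℤ) := by exact_mod_cast g1
    have g2' : (J n x : ℤ) < c + i + 2 := by exact_mod_cast g2
    refine ⟨(J n x : ℤ) - c - i, ?_, c, hcS, by ring⟩
    have : (J n x : ℤ) - c - i = -1 ∨ (J n x : ℤ) - c - i = 0 ∨ (J n x : ℤ) - c - i = 1 := by omega
    rcases this with h | h | h <;> rw [h] <;> decide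
  · rw [not_nonempty_iff_eq_empty] at hne
    refine ⟨⟨0, by positivity⟩, fun x hx => ?_⟩
    rw [hne] at hx
    exact absurd hx (notMem_empty _)

/-- the lower box dimension is less than one: for some `s < 1` and infinitely many `n` the set meets
at most `2 ^ (s n)` dyadic intervals of length `2 ^ (-n)` -/
def Low (K : Set ℝ) : Prop :=
  ∃ s < (1 : ℝ), ∃ᶠ n : ℕ in Filter.atTop,
    (boxes K n).Finite ∧ ((boxes K n).ncard : ℝ) ≤ (2 : ℝ) ^ (s * n)

theorem Low.nat {K : Set ℝ} (hK : Low K) : ∃ m : ℕ, 0 < m ∧ ∀ n₀ : ℕ, ∃ n > n₀,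
    ∃ S : Finset ℤ, boxes K n ⊆ S ∧ S.card ^ m ≤ 2 ^ ((m - 1) * n) := by
  obtain ⟨s, hs, hf⟩ := hK
  obtain ⟨m, hm⟩ := exists_nat_ge (1 / (1 - s))
  have hs' : 0 < 1 - s := by linarith
  have hm0 : 0 < m := by
    have h1 : 0 < 1 / (1 - s) := by positivity
    exact_mod_cast h1.trans_le hm
  have hm1 : s * m ≤ m - 1 := by
    rw [div_le_iff₀ hs'] at hm
    linarith
  refine ⟨m, hm0, fun n₀ => ?_⟩
  obtain ⟨n, hn, hfin, hcard⟩ := (Filter.frequently_atTop.1 hf) (n₀ + 1)
  refine ⟨n, by omega, hfin.toFinset, by simp, ?_⟩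
  rw [← Set.ncard_eq_toFinset_card _ hfin]
  have h1 : (((boxes K n).ncard : ℝ)) ^ m ≤ (2 : ℝ) ^ ((m - 1 : ℕ) * n) := by
    calc (((boxes K n).ncard : ℝ)) ^ m ≤ ((2 : ℝ) ^ (s * n)) ^ m := by gcongr
      _ = (2 : ℝ) ^ (s * n * m) := by
        rw [← Real.rpow_natCast, ← Real.rpow_mul (by norm_num)]
      _ ≤ (2 : ℝ) ^ (((m - 1 : ℕ) * n : ℕ) : ℝ) := by
        apply Real.rpow_le_rpow_of_exponent_le (by norm_num)
        push_cast [Nat.cast_sub hm0]
        have : (0 : ℝ) ≤ n := Nat.cast_nonneg n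
        nlinarith
      _ = _ := by rw [Real.rpow_natCast]
  exact_mod_cast h1

/-- sets of positive outer measure of sequences -/
theorem exists_X_low (K : ℕ → Set ℝ) (h01 : ∀ j, K j ⊆ Ico 0 1) (hK : ∀ j, Low (K j)) :
    ∃ X : Set Om, nu 2 X ≠ 0 ∧ ((∀ j t, (X ∩ AA (K j) t).Finite) ∨
      ((∀ j t, #(X ∩ AA (K j) t : Set Om) < 𝔠) ∧ ∀ E : Set Om, #E < 𝔠 → nu 2 E = 0)) := by
  choose m hm0 hm using fun j => (hK j).nat
  obtain ⟨s, hs⟩ := exists_Sh (fun j => AA (K j)) (fun j => 3 * m j) (fun j k a => by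
    obtain ⟨n, hn, S, hS1, hS2⟩ := hm j (3 + k * (3 * m j + 1) + 6 * m j + 3 * m j * a)
    have han : a < n := by
      have h0 : a ≤ 3 * m j * a := Nat.le_mul_of_pos_left a (by have := hm0 j; positivity)
      omega
    refine ⟨n, han, ?_⟩
    refine exists_good (AA (K j)) (3 * m j) k a (n - a) (2 ^ (n + 2)) (3 * S.card)
      (by have := hm0 j; positivity) (small_AA (K j) (h01 j) n a han.le S hS1) ?_
    exact num (m j) k a n S.card (hm0 j) hS2 hn)
  exact exists_X (A := fun j => AA (K j)) (r := fun j => 3 * m j) (s := s)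
    (by rw [Cardinal.mk_real]) hs

end Pool.Agent.Y508.TN
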