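import Pool.Agent.Y508.TN.Phi

/-! A set of positive outer measure meeting every set of the family in a small set. -/

set_option autoImplicit false
set_option linter.all false

namespace Pool.Agent.Y508.TN

open MeasureTheory Set Cardinal
open Pool.Agent.H339R3.CN (nu nu_cylinder ext_cyl)

theorem mk_Om : #Om = 𝔠 := by
  show #(ℕ → Fin 2) = _
  rw [← Cardinal.power_def, Cardinal.mk_fin, Cardinal.mk_nat]
  exact Cardinal.nat_power_aleph0 (by norm_num)

/-- the index set, well ordered of type the continuum -/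
abbrev Idx : Type := (𝔠 : Cardinal.{0}).ord.ToType

theorem mk_Idx : #Idx = 𝔠 := Cardinal.mk_ord_toType _

theorem exists_null_enum : ∃ N : Idx → {N : Set Om // MeasurableSet N ∧ nu 2 N = 0},
    Function.Surjective N := by
  have h1 : #{N : Set Om // MeasurableSet N ∧ nu 2 N = 0} ≤ #Idx := by
    rw [mk_Idx]
    have h2 : #{N : Set Om // MeasurableSet N ∧ nu 2 N = 0} ≤ #{t : Set Om | MeasurableSet t} :=
      Cardinal.mk_le_mk_of_subset (s := {N : Set Om | MeasurableSet N ∧ nu 2 N = 0})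
        (fun N hN => hN.1)
    refine h2.trans ?_
    have h3 := MeasurableSpace.cardinal_measurableSet_le_continuum
      (s := MeasurableSpace.countableGeneratingSet Om)
      ((Cardinal.mk_le_aleph0_iff.mpr
        (MeasurableSpace.countable_countableGeneratingSet (α := Om)).to_subtype).trans
        Cardinal.aleph0_le_continuum)
    rwa [MeasurableSpace.generateFrom_countableGeneratingSet] at h3
  obtain ⟨f⟩ := h1
  have : Nonempty {N : Set Om // MeasurableSet N ∧ nu 2 N = 0} :=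
    ⟨⟨∅, MeasurableSet.empty, measure_empty⟩⟩
  exact ⟨Function.invFun f, Function.invFun_surjective f.injective⟩

theorem fubini (s : Sh) {N : Set Om} (hN : MeasurableSet N) (h0 : nu 2 N = 0) :
    ∃ y : Om, nu 2 {z | s.phi z y ∈ N} = 0 := by
  have hm : MeasurableSet {q : Om × Om | s.phi q.1 q.2 ∈ N} := s.measurable_phi hN
  have h1 : (nu 2).prod (nu 2) {q : Om × Om | s.phi q.1 q.2 ∈ N} = 0 := by
    rw [Measure.measure_prod_null hm]
    refine Filter.Eventually.of_forall fun z => ?_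
    show nu 2 (s.phi z ⁻¹' N) = 0
    rw [(s.mp_phi z).measure_preimage hN.nullMeasurableSet, h0]
  have h2 : (nu 2).prod (nu 2) (Prod.swap ⁻¹' {q : Om × Om | s.phi q.1 q.2 ∈ N}) = 0 := by
    rw [(Measure.measurePreserving_swap (μ := nu 2) (ν := nu 2)).measure_preimage
      hm.nullMeasurableSet, h1]
  rw [Measure.measure_prod_null (measurable_swap hm)] at h2
  obtain ⟨y, hy⟩ := h2.exists
  exact ⟨y, hy⟩

variable {T : Type} {A : ℕ → T → Set Om} {r : ℕ → ℕ} {s : Sh}

theorem case_A (hs : ∀ k, Good (A k.unpair.1) (r k.unpair.1) k (s.a k)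
    (s.a (k + 1) - s.a k) (s.F k)) {Y : Set Om} (hY : #Y < 𝔠) :
    ∃ z : Om, ∀ j t, (s.phi z '' Y ∩ A j t).Finite := by
  classical
  by_contra hcon
  push Not at hcon
  choose j t hρ using hcon
  have h1 : ∀ z : Om, {y ∈ Y | s.phi z y ∈ A (j z) (t z)}.Infinite := by
    intro z hfin
    apply hρ z
    refine (hfin.image (s.phi z)).subset ?_
    rintro _ ⟨⟨y, hy, rfl⟩, h2⟩
    exact ⟨y, ⟨hy, h2⟩, rfl⟩
  have h2 : ∀ z : Om, ∃ u : Fin (r (j z)) → Y, Function.Injective u ∧
      ∀ i, s.phi z (u i) ∈ A (j z) (t z) := by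
    intro z
    have := (h1 z).to_subtype
    let em := Infinite.natEmbedding {y ∈ Y | s.phi z y ∈ A (j z) (t z)}
    refine ⟨fun i => ⟨(em (i : ℕ) : Om), (em (i : ℕ)).2.1⟩, ?_, fun i => (em (i : ℕ)).2.2⟩
    intro i i' hij
    have h3 : (em (i : ℕ) : Om) = (em (i' : ℕ) : Om) := by
      have h4 := congrArg (fun q : Y => (q : Om)) hij
      exact h4
    exact Fin.ext (em.injective (Subtype.ext h3))
  choose u hu1 hu2 using h2
  let code : Om → ℕ × List Y := fun z => (j z, List.ofFn (u z))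
  have h3 : ∃ c : ℕ × List Y, (code ⁻¹' {c}).Infinite := by
    have hsum : #(ℕ × List Y) < #Om := by
      rw [mk_Om, Cardinal.mk_prod]
      simp only [Cardinal.lift_uzero, Cardinal.mk_nat, Cardinal.lift_aleph0]
      refine Cardinal.mul_lt_of_lt Cardinal.aleph0_le_continuum Cardinal.aleph0_lt_continuum ?_
      exact (Cardinal.mk_list_le_max _).trans_lt (max_lt Cardinal.aleph0_lt_continuum hY)
    obtain ⟨c, hc⟩ := Cardinal.infinite_pigeonhole_card_lt code hsum
      (by rw [Cardinal.aleph0_le_mk_iff]; infer_instance)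
    refine ⟨c, ?_⟩
    rw [← Set.infinite_coe_iff, ← Cardinal.aleph0_le_mk_iff]
    refine le_trans ?_ hc.le
    rw [Cardinal.aleph0_le_mk_iff]; infer_instance
  obtain ⟨c, hc⟩ := h3
  obtain ⟨z₀, hz₀⟩ := hc.nonempty
  have hc' : {z : Om | code z = code z₀}.Infinite := by
    refine hc.mono ?_
    intro z hz
    have h4 : code z = c := hz
    have h5 : code z₀ = c := hz₀
    exact h4.trans h5.symm
  have := hc'.to_subtype
  let em := Infinite.natEmbedding {z : Om | code z = code z₀}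
  let g : Fin (r (j z₀)) → Om := fun w => em (w : ℕ)
  have hg : Function.Injective g := by
    intro w w' h
    have h6 := em.injective (Subtype.ext h)
    exact Fin.ext h6
  have hgt : ∀ w, code (g w) = code z₀ := fun w => (em (w : ℕ)).2
  have key : ∀ z, code z = code z₀ → ∀ i : Fin (r (j z₀)), s.phi z (u z₀ i) ∈ A (j z₀) (t z) := by
    intro z hz i
    have e1 : j z = j z₀ := congrArg Prod.fst hz
    have e2 : List.ofFn (u z) = List.ofFn (u z₀) := congrArg Prod.snd hz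
    have e3 : ∀ i : Fin (r (j z₀)), u z (Fin.cast (by rw [e1]) i) = u z₀ i := by
      intro i
      have h7 := List.ofFn_inj'.1 e2
      have h8 : ∀ (n m : ℕ) (f : Fin n → Y) (f' : Fin m → Y) (h : n = m),
          (⟨n, f⟩ : Σ n, Fin n → Y) = ⟨m, f'⟩ → ∀ i : Fin m, f (Fin.cast h.symm i) = f' i := by
        intro n m f f' h h9 i
        subst h
        simp only [Sigma.mk.injEq, heq_eq_eq, true_and] at h9
        rw [h9]
        rfl
      exact h8 _ _ _ _ (by rw [e1]) h7 i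
    have h9 := hu2 z (Fin.cast (by rw [e1]) i)
    rw [e3, e1] at h9
    exact h9
  obtain ⟨b, c', hbc⟩ := two_cond hs (j z₀) (fun i => (u z₀ i : Om)) g
    (fun i i' h => hu1 z₀ (Subtype.ext h)) hg (fun b => t (g b))
  exact hbc (key (g b) (hgt b) c')

theorem case_B (hT : #T ≤ 𝔠) [Nonempty T] (hs : ∀ k, Good (A k.unpair.1) (r k.unpair.1) k (s.a k)
    (s.a (k + 1) - s.a k) (s.F k))
    (hB : ∀ E : Set Om, #E < 𝔠 → nu 2 E = 0) :
    ∃ X : Set Om, nu 2 X ≠ 0 ∧ ∀ j t, #(X ∩ A j t : Set Om) < 𝔠 := by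
  obtain ⟨N, hN⟩ := exists_null_enum
  obtain ⟨ρ, hρ⟩ : ∃ ρ : Idx → ℕ × T, Function.Surjective ρ := by
    have h : #(ℕ × T) ≤ #Idx := by
      rw [mk_Idx, Cardinal.mk_prod]
      simp only [Cardinal.lift_uzero, Cardinal.mk_nat, Cardinal.lift_aleph0]
      exact (mul_le_mul' Cardinal.aleph0_le_continuum hT).trans (by rw [Cardinal.continuum_mul_self])
    obtain ⟨f⟩ := h
    exact ⟨Function.invFun f, Function.invFun_surjective f.injective⟩
  have key : ∀ a : Idx, ∃ x : Om, x ∉ (N a : Set Om) ∧ ∀ b < a, x ∉ A (ρ b).1 (ρ b).2 := by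
    intro a
    obtain ⟨y, hy⟩ := fubini s (N a).2.1 (N a).2.2
    have hE : nu 2 (⋃ b : Iio a, {z | s.phi z y ∈ A (ρ b).1 (ρ b).2}) = 0 := by
      apply hB
      refine (Cardinal.mk_iUnion_le _).trans_lt ?_
      refine Cardinal.mul_lt_of_lt Cardinal.aleph0_le_continuum
        (Cardinal.mk_Iio_toType_ord_lt a) ?_
      refine lt_of_le_of_lt (ciSup_le' fun b => ?_) Cardinal.aleph0_lt_continuum
      exact Cardinal.mk_le_aleph0_iff.mpr (finite_one hs y (ρ b).1 (ρ b).2).countable.to_subtype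
    have h1 : ∀ᵐ z ∂(nu 2), z ∉ (⋃ b : Iio a, {z | s.phi z y ∈ A (ρ b).1 (ρ b).2}) :=
      measure_eq_zero_iff_ae_notMem.mp hE
    have h2 : ∀ᵐ z ∂(nu 2), z ∉ {z | s.phi z y ∈ (N a : Set Om)} :=
      measure_eq_zero_iff_ae_notMem.mp hy
    obtain ⟨z, hz1, hz2⟩ := (h1.and h2).exists
    refine ⟨s.phi z y, hz2, fun b hb hcon => hz1 ?_⟩
    exact mem_iUnion.mpr ⟨⟨b, hb⟩, hcon⟩
  choose x hx1 hx2 using key
  refine ⟨range x, fun h0 => ?_, fun j t => ?_⟩
  · obtain ⟨M, hM1, hM2, hM3⟩ := exists_measurable_superset_of_null h0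
    obtain ⟨a, ha⟩ := hN ⟨M, hM2, hM3⟩
    have h3 := hx1 a
    rw [ha] at h3
    exact h3 (hM1 ⟨a, rfl⟩)
  · obtain ⟨b, hb⟩ := hρ (j, t)
    have h4 : range x ∩ A j t ⊆ x '' Iic b := by
      rintro _ ⟨⟨a, rfl⟩, ha⟩
      refine ⟨a, ?_, rfl⟩
      by_contra hlt
      have h6 := hx2 a b (not_le.mp hlt)
      rw [hb] at h6
      exact h6 ha
    refine (Cardinal.mk_le_mk_of_subset h4).trans_lt (Cardinal.mk_image_le.trans_lt ?_)
    have h5 : (Iic b : Set Idx) = insert b (Iio b) := by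
      ext a
      simp only [mem_Iic, mem_insert_iff, mem_Iio]
      exact le_iff_eq_or_lt
    rw [h5]
    refine (Cardinal.mk_insert_le).trans_lt ?_
    exact Cardinal.add_lt_of_lt Cardinal.aleph0_le_continuum (Cardinal.mk_Iio_toType_ord_lt b)
      (Cardinal.one_lt_aleph0.trans Cardinal.aleph0_lt_continuum)

/-- the combined statement -/
theorem exists_X (hT : #T ≤ 𝔠) [Nonempty T]
    (hs : ∀ k, Good (A k.unpair.1) (r k.unpair.1) k (s.a k)
    (s.a (k + 1) - s.a k) (s.F k)) : ∃ X : Set Om, nu 2 X ≠ 0 ∧ ((∀ j t, (X ∩ A j t).Finite) ∨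
      ((∀ j t, #(X ∩ A j t : Set Om) < 𝔠) ∧ ∀ E : Set Om, #E < 𝔠 → nu 2 E = 0)) := by
  by_cases hB : ∀ E : Set Om, #E < 𝔠 → nu 2 E = 0
  · obtain ⟨X, hX1, hX2⟩ := case_B hT hs hB
    exact ⟨X, hX1, Or.inr ⟨hX2, hB⟩⟩
  · push Not at hB
    obtain ⟨Y, hY1, hY2⟩ := hB
    obtain ⟨z, hz⟩ := case_A hs hY1
    refine ⟨s.phi z '' Y, fun h0 => ?_, Or.inl hz⟩
    apply hY2
    exact measure_mono_null (subset_preimage_image (s.phi z) Y)
      ((s.mp_phi z).quasiMeasurePreserving.preimage_null h0)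

end Pool.Agent.Y508.TN
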