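import Mathlib

/-! Functions which avoid finitely many small rectangles (counting). -/

set_option autoImplicit false
set_option linter.all false

namespace Pool.Agent.Y508.TN

open Finset

section
variable {Q G ι : Type} [Fintype Q] [DecidableEq Q] [Fintype G] [DecidableEq G] [Fintype ι]

/-- the functions with prescribed small sets of values at finitely many points -/
def bad (q : ι → Q) (S : ι → Finset G) : Finset (Q → G) :=
  univ.filter fun F => ∀ i, F (q i) ∈ S i

theorem mem_bad (q : ι → Q) (S : ι → Finset G) (F : Q → G) :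
    F ∈ bad q S ↔ ∀ i, F (q i) ∈ S i := by
  simp [bad]

theorem card_bad (q : ι → Q) (hq : Function.Injective q) (S : ι → Finset G) (w : ℕ)
    (hS : ∀ i, (S i).card ≤ w) :
    (bad q S).card * Fintype.card G ^ Fintype.card ι ≤
      w ^ Fintype.card ι * Fintype.card G ^ Fintype.card Q := by
  classical
  set t : Q → Finset G := fun x => if h : ∃ i, q i = x then S h.choose else univ with ht
  have h1 : bad q S ⊆ Fintype.piFinset t := by
    intro F hF
    rw [mem_bad] at hF
    rw [Fintype.mem_piFinset]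
    intro x
    simp only [ht]
    split_ifs with h
    · have h2 := hF h.choose
      rwa [h.choose_spec] at h2
    · exact mem_univ _
  have h2 : (bad q S).card ≤ ∏ x, (t x).card := by
    rw [← Fintype.card_piFinset]
    exact card_le_card h1
  have h3 : ∏ x, (t x).card ≤ ∏ x : Q, (if x ∈ univ.image q then w else Fintype.card G) := by
    refine prod_le_prod' fun x _ => ?_
    simp only [ht]
    split_ifs with h h' h'
    · exact hS _
    · exact absurd (mem_image.2 ⟨h.choose, mem_univ _, h.choose_spec⟩) h'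
    · exfalso
      rw [mem_image] at h'
      obtain ⟨i, -, hi⟩ := h'
      exact h ⟨i, hi⟩
    · exact card_le_univ _
  have h4 : ∏ x : Q, (if x ∈ univ.image q then w else Fintype.card G) =
      w ^ Fintype.card ι * Fintype.card G ^ (Fintype.card Q - Fintype.card ι) := by
    rw [prod_ite, prod_const, prod_const]
    have e1 : (univ.filter fun x => x ∈ univ.image q) = univ.image q := by
      ext x; simp
    have e2 : (univ.image q).card = Fintype.card ι := by
      rw [card_image_of_injective _ hq, card_univ]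
    have e3 : (univ.filter fun x => ¬ x ∈ univ.image q).card = Fintype.card Q - Fintype.card ι := by
      have := card_filter_add_card_filter_not (s := (univ : Finset Q)) (fun x => x ∈ univ.image q)
      rw [e1, e2, card_univ] at this
      omega
    rw [e1, e2, e3]
  have h5 : Fintype.card ι ≤ Fintype.card Q := Fintype.card_le_of_injective q hq
  calc (bad q S).card * Fintype.card G ^ Fintype.card ι
      ≤ (w ^ Fintype.card ι * Fintype.card G ^ (Fintype.card Q - Fintype.card ι)) *
        Fintype.card G ^ Fintype.card ι := Nat.mul_le_mul_right _ ((h2.trans h3).trans h4.le)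
    _ = w ^ Fintype.card ι * Fintype.card G ^ Fintype.card Q := by
        rw [mul_assoc, ← pow_add, Nat.sub_add_cancel h5]

/-- half of the functions avoid a small family of small events -/
theorem half {E : Type} [Fintype E] [Nonempty G] (q : E → ι → Q)
    (hq : ∀ e, Function.Injective (q e)) (S : E → ι → Finset G) (w : ℕ)
    (hS : ∀ e i, (S e i).card ≤ w)
    (h : 2 * Fintype.card E * w ^ Fintype.card ι < Fintype.card G ^ Fintype.card ι) :
    2 * (univ.biUnion fun e => bad (q e) (S e)).card < Fintype.card (Q → G) := by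
  classical
  have hG : 0 < Fintype.card G := Fintype.card_pos
  have h1 : (univ.biUnion fun e => bad (q e) (S e)).card * Fintype.card G ^ Fintype.card ι ≤
      Fintype.card E * (w ^ Fintype.card ι * Fintype.card G ^ Fintype.card Q) := by
    calc (univ.biUnion fun e => bad (q e) (S e)).card * Fintype.card G ^ Fintype.card ι
        ≤ (∑ e, (bad (q e) (S e)).card) * Fintype.card G ^ Fintype.card ι :=
          Nat.mul_le_mul_right _ card_biUnion_le
      _ = ∑ e, (bad (q e) (S e)).card * Fintype.card G ^ Fintype.card ι := by rw [sum_mul]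
      _ ≤ ∑ _e : E, w ^ Fintype.card ι * Fintype.card G ^ Fintype.card Q :=
          sum_le_sum fun e _ => card_bad (q e) (hq e) (S e) w (hS e)
      _ = _ := by rw [sum_const, card_univ, smul_eq_mul]
  have h2 : Fintype.card (Q → G) = Fintype.card G ^ Fintype.card Q := Fintype.card_fun
  rw [h2]
  by_contra hcon
  push Not at hcon
  have h3 : Fintype.card G ^ Fintype.card Q * Fintype.card G ^ Fintype.card ι ≤
      2 * (Fintype.card E * (w ^ Fintype.card ι * Fintype.card G ^ Fintype.card Q)) := by
    calc _ ≤ (2 * (univ.biUnion fun e => bad (q e) (S e)).card) *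
          Fintype.card G ^ Fintype.card ι := Nat.mul_le_mul_right _ hcon
      _ = 2 * ((univ.biUnion fun e => bad (q e) (S e)).card *
          Fintype.card G ^ Fintype.card ι) := by ring
      _ ≤ _ := Nat.mul_le_mul_left _ h1
  have h4 : 0 < Fintype.card G ^ Fintype.card Q := pow_pos hG _
  have h5 : Fintype.card G ^ Fintype.card ι ≤ 2 * Fintype.card E * w ^ Fintype.card ι := by
    apply Nat.le_of_mul_le_mul_left _ h4
    calc _ ≤ _ := h3
      _ = _ := by ring
  omega

end

section
variable {P G I : Type} [Fintype P] [DecidableEq P] [Fintype G] [DecidableEq G] [AddCommGroup G]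
  [Fintype I]

theorem card_shift (W : Finset G) (v : G) :
    (univ.filter fun x => v + x ∈ W).card ≤ W.card := by
  refine card_le_card_of_injOn (fun x => v + x) ?_ ?_
  · intro x hx
    exact (mem_filter.1 hx).2
  · intro x _ y _ h
    exact add_left_cancel h

/-- existence of the shifts -/
theorem exists_shift (W : I → Finset G) (w r : ℕ) (hr : 0 < r) (hW : ∀ i, (W i).card ≤ w)
    (h : 2 * (Fintype.card P ^ (r + 1) * Fintype.card G * Fintype.card I * w ^ r) <
      Fintype.card G ^ r) :
    ∃ F : P × P → G,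
      (∀ (u : P) (v : G) (g : Fin r → P), Function.Injective g → ∀ i : I,
        ∃ b, v + F (g b, u) ∉ W i) ∧
      (∀ (u : Fin r → P) (v : Fin r → G) (g : Fin r → P), Function.Injective u →
        Function.Injective g → ∀ i : Fin r → I, ∃ b c, v c + F (g b, u c) ∉ W (i b)) := by
  classical
  let E1 := P × G × {g : Fin r → P // Function.Injective g} × I
  let E2 := {u : Fin r → P // Function.Injective u} × (Fin r → G) ×
    {g : Fin r → P // Function.Injective g} × (Fin r → I)
  let q1 : E1 → Fin r → P × P := fun e b => (e.2.2.1.1 b, e.1)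
  let q2 : E2 → Fin r × Fin r → P × P := fun e b => (e.2.2.1.1 b.1, e.1.1 b.2)
  let S1 : E1 → Fin r → Finset G := fun e _ => univ.filter fun x => e.2.1 + x ∈ W e.2.2.2
  let S2 : E2 → Fin r × Fin r → Finset G := fun e b =>
    univ.filter fun x => e.2.1 b.2 + x ∈ W (e.2.2.2 b.1)
  have hq1 : ∀ e, Function.Injective (q1 e) := by
    intro e a b hab
    exact e.2.2.1.2 (congrArg Prod.fst hab)
  have hq2 : ∀ e, Function.Injective (q2 e) := by
    rintro e ⟨a, a'⟩ ⟨b, b'⟩ hab
    exact Prod.ext (e.2.2.1.2 (congrArg Prod.fst hab)) (e.1.2 (congrArg Prod.snd hab))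
  have hS1 : ∀ e i, (S1 e i).card ≤ w := fun e i => (card_shift _ _).trans (hW _)
  have hS2 : ∀ e i, (S2 e i).card ≤ w := fun e i => (card_shift _ _).trans (hW _)
  set p := Fintype.card P with hp
  set N := Fintype.card G with hN
  set T := Fintype.card I with hT
  have hsub : Fintype.card {g : Fin r → P // Function.Injective g} ≤ p ^ r := by
    refine (Fintype.card_subtype_le _).trans ?_
    rw [Fintype.card_fun, Fintype.card_fin]
  have c1 : Fintype.card E1 ≤ p ^ (r + 1) * N * T := by
    show Fintype.card (P × G × {g : Fin r → P // Function.Injective g} × I) ≤ _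
    rw [Fintype.card_prod, Fintype.card_prod, Fintype.card_prod]
    calc p * (N * (Fintype.card {g : Fin r → P // Function.Injective g} * T))
        ≤ p * (N * (p ^ r * T)) := by gcongr
      _ = _ := by rw [pow_succ]; ring
  have c2 : Fintype.card E2 ≤ (p ^ 2 * N * T) ^ r := by
    show Fintype.card ({u : Fin r → P // Function.Injective u} × (Fin r → G) ×
      {g : Fin r → P // Function.Injective g} × (Fin r → I)) ≤ _
    rw [Fintype.card_prod, Fintype.card_prod, Fintype.card_prod, Fintype.card_fun,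
      Fintype.card_fun, Fintype.card_fin]
    calc Fintype.card {g : Fin r → P // Function.Injective g} *
          (N ^ r * (Fintype.card {g : Fin r → P // Function.Injective g} * T ^ r))
        ≤ p ^ r * (N ^ r * (p ^ r * T ^ r)) := by gcongr
      _ = _ := by rw [mul_pow, mul_pow, ← pow_mul]; ring
  have k1 : 2 * Fintype.card E1 * w ^ Fintype.card (Fin r) < N ^ Fintype.card (Fin r) := by
    rw [Fintype.card_fin]
    calc 2 * Fintype.card E1 * w ^ r ≤ 2 * (p ^ (r + 1) * N * T) * w ^ r := by gcongr
      _ = 2 * (p ^ (r + 1) * N * T * w ^ r) := by ring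
      _ < _ := h
  have k2 : 2 * Fintype.card E2 * w ^ Fintype.card (Fin r × Fin r) <
      N ^ Fintype.card (Fin r × Fin r) := by
    have hrr : Fintype.card (Fin r × Fin r) = r * r := by
      rw [Fintype.card_prod, Fintype.card_fin]
    rw [hrr]
    have hp2 : p ^ 2 ≤ p ^ (r + 1) := by
      rcases Nat.eq_zero_or_pos p with h0 | h0
      · rw [h0]; simp
      · exact Nat.pow_le_pow_right h0 (by omega)
    calc 2 * Fintype.card E2 * w ^ (r * r)
        ≤ 2 ^ r * (p ^ 2 * N * T) ^ r * w ^ (r * r) := by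
          gcongr
          calc 2 = 2 ^ 1 := by norm_num
            _ ≤ 2 ^ r := Nat.pow_le_pow_right (by norm_num) hr
      _ ≤ 2 ^ r * (p ^ (r + 1) * N * T) ^ r * w ^ (r * r) := by gcongr
      _ = (2 * (p ^ (r + 1) * N * T * w ^ r)) ^ r := by
          rw [mul_pow 2, mul_pow (p ^ (r + 1) * N * T), ← pow_mul w]; ring
      _ < (N ^ r) ^ r := Nat.pow_lt_pow_left h hr.ne'
      _ = N ^ (r * r) := by rw [← pow_mul]
  haveI : Nonempty G := ⟨0⟩
  have b1 := half q1 hq1 S1 w hS1 k1
  have b2 := half q2 hq2 S2 w hS2 k2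
  have hex : ∃ F : P × P → G, F ∉ (univ.biUnion fun e => bad (q1 e) (S1 e)) ∧
      F ∉ (univ.biUnion fun e => bad (q2 e) (S2 e)) := by
    by_contra hcon
    push Not at hcon
    have h1 : (univ : Finset (P × P → G)) ⊆ (univ.biUnion fun e => bad (q1 e) (S1 e)) ∪
        (univ.biUnion fun e => bad (q2 e) (S2 e)) := by
      intro F _
      rw [mem_union]
      by_cases hF : F ∈ (univ.biUnion fun e => bad (q1 e) (S1 e))
      · exact Or.inl hF
      · exact Or.inr (hcon F hF)
    have h2 := (card_le_card h1).trans (card_union_le _ _)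
    rw [card_univ] at h2
    omega
  obtain ⟨F, hF1, hF2⟩ := hex
  refine ⟨F, ?_, ?_⟩
  · intro u v g hg i
    by_contra hcon
    push Not at hcon
    apply hF1
    rw [mem_biUnion]
    refine ⟨(u, v, ⟨g, hg⟩, i), mem_univ _, ?_⟩
    rw [mem_bad]
    intro b
    show F (g b, u) ∈ univ.filter fun x => v + x ∈ W i
    rw [mem_filter]
    exact ⟨mem_univ _, hcon b⟩
  · intro u v g hu hg i
    by_contra hcon
    push Not at hcon
    apply hF2
    rw [mem_biUnion]
    refine ⟨(⟨u, hu⟩, v, ⟨g, hg⟩, i), mem_univ _, ?_⟩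
    rw [mem_bad]
    intro b
    show F (g b.1, u b.2) ∈ univ.filter fun x => v b.2 + x ∈ W (i b.1)
    rw [mem_filter]
    exact ⟨mem_univ _, hcon b.1 b.2⟩

end

/-- the numerical condition -/
theorem num (m k a n s : ℕ) (hm : 0 < m) (hs : s ^ m ≤ 2 ^ ((m - 1) * n))
    (hn : 3 + k * (3 * m + 1) + 6 * m + 3 * m * a < n) :
    2 * ((2 ^ k) ^ (3 * m + 1) * 2 ^ (n - a) * 2 ^ (n + 2) * (3 * s) ^ (3 * m)) <
      (2 ^ (n - a)) ^ (3 * m) := by
  obtain ⟨l, rfl⟩ : ∃ l, m = l + 1 := ⟨m - 1, by omega⟩
  have han : a ≤ n := by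
    have h0 : a ≤ 3 * (l + 1) * a := Nat.le_mul_of_pos_left a (by positivity)
    omega
  obtain ⟨d, rfl⟩ : ∃ d, n = a + d := ⟨n - a, by omega⟩
  rw [Nat.add_sub_cancel] at hs
  rw [Nat.add_sub_cancel_left]
  have h1 : (3 * s) ^ (3 * (l + 1)) ≤ 2 ^ (6 * (l + 1)) * 2 ^ (3 * (l * (a + d))) := by
    rw [mul_pow]
    have e1 : 3 ^ (3 * (l + 1)) ≤ 2 ^ (6 * (l + 1)) := by
      calc 3 ^ (3 * (l + 1)) ≤ 4 ^ (3 * (l + 1)) := Nat.pow_le_pow_left (by norm_num) _
        _ = 2 ^ (6 * (l + 1)) := by
          rw [show (4 : ℕ) = 2 ^ 2 by norm_num, ← pow_mul]; congr 1; ring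
    have e2 : s ^ (3 * (l + 1)) ≤ 2 ^ (3 * (l * (a + d))) := by
      calc s ^ (3 * (l + 1)) = (s ^ (l + 1)) ^ 3 := by rw [← pow_mul, mul_comm]
        _ ≤ (2 ^ (l * (a + d))) ^ 3 := Nat.pow_le_pow_left hs _
        _ = _ := by rw [← pow_mul, mul_comm]
    exact Nat.mul_le_mul e1 e2
  have h2 : 2 * ((2 ^ k) ^ (3 * (l + 1) + 1) * 2 ^ d * 2 ^ (a + d + 2) * (3 * s) ^ (3 * (l + 1))) ≤
      2 ^ (3 + k * (3 * (l + 1) + 1) + 6 * (l + 1) + (a + 2 * d) + 3 * (l * (a + d))) := by
    calc _ ≤ 2 * ((2 ^ k) ^ (3 * (l + 1) + 1) * 2 ^ d * 2 ^ (a + d + 2) *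
          (2 ^ (6 * (l + 1)) * 2 ^ (3 * (l * (a + d))))) := by gcongr
      _ = _ := by rw [← pow_mul]; ring
  refine lt_of_le_of_lt h2 ?_
  rw [← pow_mul]
  refine Nat.pow_lt_pow_right (by norm_num) ?_
  nlinarith

end Pool.Agent.Y508.TN
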