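import Pool.Agent.Y508.TN.Sim

/-! The theorem for all similar copies. -/

set_option autoImplicit false
set_option linter.all false

namespace Pool.Agent.Y508.TN

open MeasureTheory Set Cardinal
open Pool.Agent.H339R3.CN (nu nu_cylinder ext_cyl mp_ofDigits mp_digits)

theorem exists_un_sim (K : ℕ → Set ℝ) (hK : ∀ j, Low (K j)) :
    ∃ X : Set ℝ, volume X ≠ 0 ∧ ∀ (j : ℕ) (a t : ℝ), a ≠ 0 → UN (X ∩ {x | a * x + t ∈ K j}) := by
  let e : ℕ ≃ ℕ × ℤ := (Denumerable.eqv (ℕ × ℤ)).symm
  obtain ⟨X, hX, hX'⟩ := exists_X_sim (fun n => piece (K (e n).1) (e n).2) (fun n x hx => hx.1)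
    (fun n => (hK _).piece _)
  have hun : ∀ n M p, UN (Real.ofDigits '' (X ∩ AS (piece (K (e n).1) (e n).2) M p)) := by
    intro n M p
    have h1 : (Nat.unpair (Nat.pair n M)).1 = n := by rw [Nat.unpair_pair]
    have h2 : (Nat.unpair (Nat.pair n M)).2 = M := by rw [Nat.unpair_pair]
    rcases hX' with h | ⟨h, hB⟩
    · have h3 := h (Nat.pair n M) p
      rw [h1, h2] at h3
      exact UN.countable (h3.image _).countable
    · have h3 := h (Nat.pair n M) p
      rw [h1, h2] at h3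
      exact UN.small hB (Cardinal.mk_image_le.trans_lt h3)
  refine ⟨Real.ofDigits '' X, fun h0 => hX ?_, fun j a t ha => ?_⟩
  · have h1 : (volume.restrict (Ico (0 : ℝ) 1)) (Real.ofDigits '' X) = 0 :=
      le_antisymm ((Measure.restrict_apply_le _ _).trans h0.le) zero_le
    exact measure_mono_null (subset_preimage_image _ _)
      ((mp_ofDigits (b := 2) (by norm_num)).quasiMeasurePreserving.preimage_null h1)
  · obtain ⟨M, hM⟩ := pow_unbounded_of_one_lt |a|⁻¹ (one_lt_two (α := ℝ))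
    refine UN.mono (UN.iUnion (ι := ℤ) (fun i => hun (e.symm (j, i)) M (a, t - i))) ?_
    rintro _ ⟨⟨x, hx, rfl⟩, hxt⟩
    rw [mem_iUnion]
    refine ⟨⌊a * Real.ofDigits x + t⌋, x, ⟨hx, hM.le, ha, ?_⟩, rfl⟩
    rw [Equiv.apply_symm_apply]
    show a * Real.ofDigits x + (t - (⌊a * Real.ofDigits x + t⌋ : ℤ)) ∈ piece (K j) _
    have h1 := Int.floor_le (a * Real.ofDigits x + t)
    have h2 := Int.lt_floor_add_one (a * Real.ofDigits x + t)
    refine ⟨⟨by linarith, by linarith⟩, ?_⟩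
    have h3 : a * Real.ofDigits x + (t - (⌊a * Real.ofDigits x + t⌋ : ℤ)) +
        (⌊a * Real.ofDigits x + t⌋ : ℤ) = a * Real.ofDigits x + t := by ring
    rw [h3]
    exact hxt

/-- **Main theorem** -/
theorem exists_full_sim (K : ℕ → Set ℝ) (hK : ∀ j, Low (K j)) :
    ∃ X : Set ℝ, (∀ B, MeasurableSet B → X ⊆ B → volume Bᶜ = 0) ∧
      ∀ μ : Measure ℝ, SFinite μ → (∀ x, μ {x} = 0) → μ (⋃ j, K j)ᶜ = 0 →
        ∀ a t : ℝ, a ≠ 0 → μ ((fun x => a * x + t) '' X) = 0 := by
  obtain ⟨X, hX, hun⟩ := exists_un_sim K hK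
  refine ⟨sat X, fun B hB hXB => full ?_ (sat_inv X) hB hXB, ?_⟩
  · intro h
    exact hX (measure_mono_null (subset_sat X) h)
  · intro μ h1 h2 h3 a t ha
    have h4 : (fun x => a * x + t) '' sat X ⊆ (⋃ j, K j)ᶜ ∪
        ⋃ j, (fun x => a * x + t) '' (sat X ∩ {x | a * x + t ∈ K j}) := by
      rintro _ ⟨x, hx, rfl⟩
      by_cases hmem : a * x + t ∈ ⋃ j, K j
      · rw [mem_iUnion] at hmem
        obtain ⟨j, hj⟩ := hmem
        exact Or.inr (mem_iUnion.2 ⟨j, x, ⟨hx, hj⟩, rfl⟩)
      · exact Or.inl hmem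
    refine measure_mono_null h4 (measure_union_null h3 (measure_iUnion_null fun j => ?_))
    refine UN.affine ?_ a t ha μ h1 h2
    refine UN.mono (UN.iUnion (ι := ℚ) fun q =>
      (hun j a (t + a * q) ha).affine 1 (q : ℝ) one_ne_zero) ?_
    rintro x ⟨hx, hxt⟩
    unfold sat at hx
    rw [mem_iUnion] at hx ⊢
    obtain ⟨q, y, hy, rfl⟩ := hx
    refine ⟨q, y, ⟨hy, ?_⟩, rfl⟩
    show a * y + (t + a * q) ∈ K j
    have h5 : a * y + (t + a * q) = a * (1 * y + q) + t := by ring
    rw [h5]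
    exact hxt

/-- necessity: a measure which annihilates all translates of a set of positive outer measure has no
atoms and is singular -/
theorem necessary {X : Set ℝ} (hX : volume X ≠ 0) (μ : Measure ℝ) [SigmaFinite μ]
    (h : ∀ t : ℝ, μ ((fun x => x + t) '' X) = 0) :
    (∀ x, μ {x} = 0) ∧ μ ⟂ₘ (volume : Measure ℝ) := by
  constructor
  · intro x
    have hne : X.Nonempty := by
      rw [nonempty_iff_ne_empty]
      rintro rfl
      exact hX measure_empty
    obtain ⟨y, hy⟩ := hne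
    refine measure_mono_null ?_ (h (x - y))
    rintro _ rfl
    exact ⟨y, hy, by ring⟩
  · -- the saturation is null for `μ` and has full outer measure
    have hs : μ (sat X) = 0 := by
      unfold sat
      refine measure_iUnion_null fun q => ?_
      have := h q
      simpa using this
    obtain ⟨B, hB1, hB2, hB3⟩ := exists_measurable_superset_of_null hs
    have h1 : volume Bᶜ = 0 := full (fun h0 => hX (measure_mono_null (subset_sat X) h0))
      (sat_inv X) hB2 hB1
    exact ⟨B, hB2, hB3, h1⟩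

end Pool.Agent.Y508.TN
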