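import Pool.Agent.Y508.TN.Main

/-! Full outer measure, and the Cantor set. -/

set_option autoImplicit false
set_option linter.all false

namespace Pool.Agent.Y508.TN

open MeasureTheory Set Filter Topology Metric

/-- a set of reals which is invariant under rational translations and has positive outer measure has
full outer measure -/
theorem full {X : Set ℝ} (h0 : volume X ≠ 0) (hq : ∀ (q : ℚ) (x : ℝ), x + q ∈ X ↔ x ∈ X)
    {B : Set ℝ} (hB : MeasurableSet B) (hX : X ⊆ B) : volume Bᶜ = 0 := by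
  by_contra h1
  have a1 := IsUnifLocDoublingMeasure.ae_tendsto_measure_inter_div (μ := (volume : Measure ℝ)) X 1
  have a2 := IsUnifLocDoublingMeasure.ae_tendsto_measure_inter_div (μ := (volume : Measure ℝ)) Bᶜ 1
  haveI n1 : (ae (volume.restrict X)).NeBot := by
    rw [ae_neBot]
    intro h
    exact h0 (Measure.restrict_eq_zero.1 h)
  haveI n2 : (ae (volume.restrict Bᶜ)).NeBot := by
    rw [ae_neBot]
    intro h
    exact h1 (Measure.restrict_eq_zero.1 h)
  obtain ⟨x, hx⟩ := a1.exists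
  obtain ⟨y, hy⟩ := a2.exists
  -- rational translations which bring `x` close to `y`
  have hex : ∀ j : ℕ, ∃ q : ℚ, |y - (x + q)| < 1 / ((j : ℝ) + 1) := by
    intro j
    have hpos : (0 : ℝ) < 1 / ((j : ℝ) + 1) := by positivity
    obtain ⟨q, hq1, hq2⟩ := exists_rat_btwn (show y - x - 1 / ((j : ℝ) + 1) < y - x by linarith)
    refine ⟨q, ?_⟩
    rw [abs_lt]
    constructor <;> linarith
  choose q hqj using hex
  let δ : ℕ → ℝ := fun j => 1 / ((j : ℝ) + 1)
  have hδpos : ∀ j, 0 < δ j := fun j => by positivity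
  have hδ : Tendsto δ atTop (𝓝[>] 0) := by
    rw [tendsto_nhdsWithin_iff]
    exact ⟨tendsto_one_div_add_atTop_nhds_zero_nat, Eventually.of_forall fun j => hδpos j⟩
  have t1 := hx (l := atTop) (fun _ : ℕ => x) δ hδ (Eventually.of_forall fun j => by
    rw [mem_closedBall, dist_self, one_mul]; exact (hδpos j).le)
  have t2 := hy (l := atTop) (fun j : ℕ => x + q j) δ hδ (Eventually.of_forall fun j => by
    rw [mem_closedBall, Real.dist_eq, one_mul]; exact (hqj j).le)
  have key : ∀ j, volume (X ∩ closedBall x (δ j)) / volume (closedBall x (δ j)) +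
      volume (Bᶜ ∩ closedBall (x + q j) (δ j)) / volume (closedBall (x + q j) (δ j)) ≤ 1 := by
    intro j
    have e1 : volume (closedBall x (δ j)) = volume (closedBall (x + q j) (δ j)) := by
      rw [Real.volume_closedBall, Real.volume_closedBall]
    have e2 : volume (X ∩ closedBall x (δ j)) = volume (X ∩ closedBall (x + q j) (δ j)) := by
      have h2 : (fun z : ℝ => z + (q j : ℝ)) ⁻¹' (X ∩ closedBall (x + q j) (δ j)) =
          X ∩ closedBall x (δ j) := by
        ext z
        simp only [mem_preimage, mem_inter_iff, mem_closedBall, Real.dist_eq, hq]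
        rw [show z + (q j : ℝ) - (x + q j) = z - x by ring]
      rw [← h2]
      exact (measurePreserving_add_right (volume : Measure ℝ) (q j : ℝ)).measure_preimage_equiv
        (f := MeasurableEquiv.addRight (q j : ℝ)) _
    rw [e1, e2, ← ENNReal.add_div]
    have h3 : volume (X ∩ closedBall (x + q j) (δ j)) + volume (Bᶜ ∩ closedBall (x + q j) (δ j)) ≤
        volume (closedBall (x + q j) (δ j)) := by
      calc _ ≤ volume (closedBall (x + q j) (δ j) ∩ B) + volume (closedBall (x + q j) (δ j) \ B) := by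
            refine add_le_add (measure_mono ?_) (measure_mono ?_)
            · rintro z ⟨hz1, hz2⟩
              exact ⟨hz2, hX hz1⟩
            · rintro z ⟨hz1, hz2⟩
              exact ⟨hz2, hz1⟩
        _ = _ := measure_inter_add_diff _ hB
    calc _ ≤ volume (closedBall (x + q j) (δ j)) / volume (closedBall (x + q j) (δ j)) := by gcongr
      _ ≤ 1 := ENNReal.div_self_le_one
  have h4 := le_of_tendsto' (t1.add t2) key
  norm_num at h4

/-- saturation under rational translations -/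
def sat (X : Set ℝ) : Set ℝ := ⋃ q : ℚ, (fun x => 1 * x + (q : ℝ)) '' X

theorem sat_inv (X : Set ℝ) (q : ℚ) (x : ℝ) : x + q ∈ sat X ↔ x ∈ sat X := by
  unfold sat
  simp only [mem_iUnion, mem_image]
  constructor
  · rintro ⟨p, y, hy, h⟩
    refine ⟨p - q, y, hy, ?_⟩
    push_cast
    linarith
  · rintro ⟨p, y, hy, h⟩
    refine ⟨p + q, y, hy, ?_⟩
    push_cast
    linarith

theorem subset_sat (X : Set ℝ) : X ⊆ sat X := by
  intro x hx
  unfold sat
  rw [mem_iUnion]
  exact ⟨0, x, hx, by simp⟩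

theorem sat_un (X K : Set ℝ) (h : ∀ t, UN (X ∩ {x | x - t ∈ K})) (t : ℝ) :
    UN (sat X ∩ {x | x - t ∈ K}) := by
  refine UN.mono (UN.iUnion (ι := ℚ) fun q => (h (t - q)).affine 1 (q : ℝ) one_ne_zero) ?_
  rintro x ⟨hx, hxt⟩
  unfold sat at hx
  rw [mem_iUnion] at hx ⊢
  obtain ⟨q, y, hy, rfl⟩ := hx
  refine ⟨q, y, ⟨hy, ?_⟩, rfl⟩
  have h1 : y - (t - q) = 1 * y + q - t := by ring
  show y - (t - q) ∈ K
  rw [h1]
  exact hxt

/-- the set of full outer measure -/
theorem exists_full (K : ℕ → Set ℝ) (hK : ∀ j, Low (K j)) (L : ℕ → ℝ) (hL : ∀ i, L i ≠ 0) :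
    ∃ X : Set ℝ, (∀ B, MeasurableSet B → X ⊆ B → volume Bᶜ = 0) ∧
      ∀ μ : Measure ℝ, SFinite μ → (∀ x, μ {x} = 0) → μ (⋃ j, K j)ᶜ = 0 →
        ∀ i t, μ ((fun x => L i * x + t) '' X) = 0 := by
  let e : ℕ ≃ ℕ × ℕ := (Denumerable.eqv (ℕ × ℕ)).symm
  obtain ⟨X, hX, hun⟩ := exists_un (fun n => (fun x => (L (e n).2)⁻¹ * x) '' K (e n).1)
    (fun n => (hK _).dilate _)
  refine ⟨sat X, fun B hB hXB => full ?_ (sat_inv X) hB hXB, ?_⟩
  · intro h
    exact hX (measure_mono_null (subset_sat X) h)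
  · intro μ h1 h2 h3 i t
    have h4 : (fun x => L i * x + t) '' sat X ⊆ (⋃ j, K j)ᶜ ∪
        ⋃ j, (fun x => L i * x + t) '' (sat X ∩ {x | x - (-(L i)⁻¹ * t) ∈
          (fun x => (L i)⁻¹ * x) '' K j}) := by
      rintro _ ⟨x, hx, rfl⟩
      by_cases hmem : L i * x + t ∈ ⋃ j, K j
      · rw [mem_iUnion] at hmem
        obtain ⟨j, hj⟩ := hmem
        refine Or.inr (mem_iUnion.2 ⟨j, x, ⟨hx, L i * x + t, hj, ?_⟩, rfl⟩)
        show (L i)⁻¹ * (L i * x + t) = x - (-(L i)⁻¹ * t)
        rw [mul_add, ← mul_assoc, inv_mul_cancel₀ (hL i)]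
        ring
      · exact Or.inl hmem
    refine measure_mono_null h4 (measure_union_null h3 (measure_iUnion_null fun j => ?_))
    refine UN.affine ?_ (L i) t (hL i) μ h1 h2
    refine sat_un X _ (fun t => ?_) _
    have h5 := hun (e.symm (j, i)) t
    rwa [Equiv.apply_symm_apply] at h5

end Pool.Agent.Y508.TN
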