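import Pool.Agent.Y508.TN.UN

/-! The set of reals. -/

set_option autoImplicit false
set_option linter.all false

namespace Pool.Agent.Y508.TN

open MeasureTheory Set Cardinal ProbabilityTheory
open Pool.Agent.H339R3.CN (nu nu_cylinder ext_cyl mp_ofDigits mp_digits)

/-- the piece of `K` in `[i, i + 1)`, moved to `[0, 1)` -/
def piece (K : Set ℝ) (i : ℤ) : Set ℝ := {x | x ∈ Ico (0 : ℝ) 1 ∧ x + i ∈ K}

theorem Low.piece {K : Set ℝ} (hK : Low K) (i : ℤ) : Low (piece K i) := by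
  obtain ⟨s, hs, hf⟩ := hK
  refine ⟨s, hs, hf.mono ?_⟩
  rintro n ⟨h1, h2⟩
  have h3 : (fun c : ℤ => c + i * 2 ^ n) '' boxes (TN.piece K i) n ⊆ boxes K n := by
    rintro _ ⟨_, ⟨x, ⟨-, hx⟩, rfl⟩, rfl⟩
    refine ⟨x + i, hx, ?_⟩
    show ⌊2 ^ n * (x + i)⌋ = ⌊2 ^ n * x⌋ + i * 2 ^ n
    rw [← Int.floor_add_intCast]
    congr 1
    push_cast
    ring
  have hinj : Function.Injective (fun c : ℤ => c + i * 2 ^ n) := add_left_injective _
  have h4 : (boxes (TN.piece K i) n).Finite :=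
    Set.Finite.of_finite_image (h1.subset h3) hinj.injOn
  refine ⟨h4, le_trans ?_ h2⟩
  have h5 := Set.ncard_le_ncard h3 h1
  rw [Set.ncard_image_of_injective _ hinj] at h5
  exact_mod_cast h5

/-- a set of positive outer measure which meets all translates of the sets in universally null sets -/
theorem exists_un (K : ℕ → Set ℝ) (hK : ∀ j, Low (K j)) :
    ∃ X : Set ℝ, volume X ≠ 0 ∧ ∀ j t, UN (X ∩ {x | x - t ∈ K j}) := by
  let e : ℕ ≃ ℕ × ℤ := (Denumerable.eqv (ℕ × ℤ)).symm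
  obtain ⟨X, hX, hX'⟩ := exists_X_low (fun n => piece (K (e n).1) (e n).2) (fun n x hx => hx.1)
    (fun n => (hK _).piece _)
  have hun : ∀ n t, UN (Real.ofDigits '' (X ∩ AA (piece (K (e n).1) (e n).2) t)) := by
    intro n t
    rcases hX' with h | ⟨h, hB⟩
    · exact UN.countable ((h n t).image _).countable
    · exact UN.small hB (Cardinal.mk_image_le.trans_lt (h n t))
  refine ⟨Real.ofDigits '' X, fun h0 => hX ?_, fun j t => ?_⟩
  · have h1 : (volume.restrict (Ico (0 : ℝ) 1)) (Real.ofDigits '' X) = 0 :=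
      le_antisymm ((Measure.restrict_apply_le _ _).trans h0.le) zero_le
    exact measure_mono_null (subset_preimage_image _ _)
      ((mp_ofDigits (b := 2) (by norm_num)).quasiMeasurePreserving.preimage_null h1)
  · refine UN.mono (UN.iUnion (ι := ℤ) (fun i => hun (e.symm (j, i)) (t + i))) ?_
    rintro _ ⟨⟨x, hx, rfl⟩, hxt⟩
    rw [mem_iUnion]
    refine ⟨⌊Real.ofDigits x - t⌋, x, ⟨hx, ?_⟩, rfl⟩
    rw [Equiv.apply_symm_apply]
    show Real.ofDigits x - (t + (⌊Real.ofDigits x - t⌋ : ℤ)) ∈ piece (K j) _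
    have h1 := Int.floor_le (Real.ofDigits x - t)
    have h2 := Int.lt_floor_add_one (Real.ofDigits x - t)
    refine ⟨⟨by linarith, by linarith⟩, ?_⟩
    have h3 : Real.ofDigits x - (t + (⌊Real.ofDigits x - t⌋ : ℤ)) + (⌊Real.ofDigits x - t⌋ : ℤ) =
        Real.ofDigits x - t := by ring
    rw [h3]
    exact hxt

/-- dilations -/
theorem Low.dilate {K : Set ℝ} (hK : Low K) (a : ℝ) : Low ((fun x => a * x) '' K) := by
  obtain ⟨s, hs, hf⟩ := hK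
  obtain ⟨M, hM⟩ := exists_nat_ge |a|
  obtain ⟨s', hs', hs1⟩ := exists_between hs
  -- each box is mapped into at most `2 M + 3` boxes
  have key : ∀ n, boxes ((fun x => a * x) '' K) n ⊆
      (fun q : ℤ × ℤ => ⌊a * q.1⌋ + q.2) '' (boxes K n ×ˢ (Icc (-(M + 1) : ℤ) (M + 1))) := by
    rintro n _ ⟨_, ⟨x, hx, rfl⟩, rfl⟩
    refine ⟨(⌊2 ^ n * x⌋, ⌊2 ^ n * (a * x)⌋ - ⌊a * ⌊2 ^ n * x⌋⌋), ⟨⟨x, hx, rfl⟩, ?_⟩, by
      show ⌊a * ⌊2 ^ n * x⌋⌋ + (⌊2 ^ n * (a * x)⌋ - ⌊a * ⌊2 ^ n * x⌋⌋) = _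
      ring⟩
    have h1 := Int.floor_le (2 ^ n * x)
    have h2 := Int.lt_floor_add_one (2 ^ n * x)
    have h3 := Int.floor_le (2 ^ n * (a * x))
    have h4 := Int.lt_floor_add_one (2 ^ n * (a * x))
    have h5 := Int.floor_le (a * ⌊2 ^ n * x⌋)
    have h6 := Int.lt_floor_add_one (a * ⌊2 ^ n * x⌋)
    have h7 : |2 ^ n * (a * x) - a * ⌊2 ^ n * x⌋| ≤ M := by
      have e1 : 2 ^ n * (a * x) - a * ⌊2 ^ n * x⌋ = a * (2 ^ n * x - ⌊2 ^ n * x⌋) := by ring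
      rw [e1, abs_mul]
      have e2 : |2 ^ n * x - (⌊2 ^ n * x⌋ : ℝ)| ≤ 1 := by
        rw [abs_le]
        constructor <;> linarith
      calc |a| * |2 ^ n * x - (⌊2 ^ n * x⌋ : ℝ)| ≤ M * 1 := by gcongr
        _ = M := mul_one _
    rw [abs_le] at h7
    show ⌊2 ^ n * (a * x)⌋ - ⌊a * ⌊2 ^ n * x⌋⌋ ∈ Icc (-(M + 1) : ℤ) (M + 1)
    constructor
    · have h8 : ((-(M + 1) : ℤ) : ℝ) - 1 <
          ((⌊2 ^ n * (a * x)⌋ - ⌊a * ⌊2 ^ n * x⌋⌋ : ℤ) : ℝ) := by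
        push_cast
        linarith [h7.1]
      have h9 : (-(M + 1) : ℤ) - 1 < ⌊2 ^ n * (a * x)⌋ - ⌊a * ⌊2 ^ n * x⌋⌋ := by
        exact_mod_cast h8
      omega
    · have h8 : ((⌊2 ^ n * (a * x)⌋ - ⌊a * ⌊2 ^ n * x⌋⌋ : ℤ) : ℝ) < ((M + 1 : ℤ) : ℝ) + 1 := by
        push_cast
        linarith [h7.2]
      have h9 : ⌊2 ^ n * (a * x)⌋ - ⌊a * ⌊2 ^ n * x⌋⌋ < (M + 1 : ℤ) + 1 := by
        exact_mod_cast h8
      omega
  have hgrow : ∀ᶠ n : ℕ in Filter.atTop, ((2 * M + 3 : ℕ) : ℝ) * (2 : ℝ) ^ (s * n) ≤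
      (2 : ℝ) ^ (s' * n) := by
    have h1 : Filter.Tendsto (fun n : ℕ => (2 : ℝ) ^ ((s' - s) * n)) Filter.atTop Filter.atTop := by
      have h2 : Filter.Tendsto (fun n : ℕ => (s' - s) * (n : ℝ)) Filter.atTop Filter.atTop :=
        tendsto_natCast_atTop_atTop.const_mul_atTop (by linarith)
      exact (tendsto_rpow_atTop_of_base_gt_one 2 (by norm_num)).comp h2
    filter_upwards [h1.eventually_ge_atTop ((2 * M + 3 : ℕ) : ℝ)] with n hn
    calc ((2 * M + 3 : ℕ) : ℝ) * (2 : ℝ) ^ (s * n)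
        ≤ (2 : ℝ) ^ ((s' - s) * n) * (2 : ℝ) ^ (s * n) := by gcongr
      _ = (2 : ℝ) ^ (s' * n) := by
        rw [← Real.rpow_add (by norm_num)]
        congr 1
        ring
  refine ⟨s', hs1, (hf.and_eventually hgrow).mono ?_⟩
  rintro n ⟨⟨h1, h2⟩, h3⟩
  have hfin : (boxes K n ×ˢ (Icc (-(M + 1) : ℤ) (M + 1))).Finite := h1.prod (Set.finite_Icc _ _)
  refine ⟨(hfin.image _).subset (key n), ?_⟩
  have h4 := Set.ncard_le_ncard (key n) (hfin.image _)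
  have h5 := Set.ncard_image_le (f := fun q : ℤ × ℤ => ⌊a * q.1⌋ + q.2) hfin
  have h6 : (boxes K n ×ˢ (Icc (-(M + 1) : ℤ) (M + 1))).ncard = (boxes K n).ncard * (2 * M + 3) := by
    rw [Set.ncard_prod]
    congr 1
    rw [← Finset.coe_Icc, Set.ncard_coe_finset, Int.card_Icc]
    omega
  have h7 : (boxes ((fun x => a * x) '' K) n).ncard ≤ (boxes K n).ncard * (2 * M + 3) := by
    rw [← h6]
    exact h4.trans h5
  calc ((boxes ((fun x => a * x) '' K) n).ncard : ℝ)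
      ≤ (((boxes K n).ncard * (2 * M + 3) : ℕ) : ℝ) := by exact_mod_cast h7
    _ = ((2 * M + 3 : ℕ) : ℝ) * ((boxes K n).ncard : ℝ) := by push_cast; ring
    _ ≤ ((2 * M + 3 : ℕ) : ℝ) * (2 : ℝ) ^ (s * n) := by gcongr
    _ ≤ _ := h3

end Pool.Agent.Y508.TN
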