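import Pool.Agent.H339R3.CN1
import Pool.Agent.Y508.TN.Comb

/-! Triangular shifts of the space of binary sequences, constant on blocks. -/

set_option autoImplicit false
set_option linter.all false

namespace Pool.Agent.Y508.TN

open MeasureTheory Set
open Pool.Agent.H339R3.CN (nu nu_cylinder ext_cyl)

/-- binary sequences -/
abbrev Om : Type := ℕ → Fin 2

/-- the first `k` terms -/
def pre (k : ℕ) (x : Om) : Fin k → Fin 2 := fun i => x i

/-- the word at the places `a, ..., a + L - 1` -/
def word (a L : ℕ) (x : Om) : Fin L → Fin 2 := fun i => x (a + i)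

/-- blocks and shifts -/
structure Sh where
  a : ℕ → ℕ
  mono : StrictMono a
  F : ∀ k, (Fin k → Fin 2) × (Fin k → Fin 2) → (Fin (a (k + 1) - a k) → Fin 2)

namespace Sh

variable (s : Sh)

/-- the block of a place -/
def blk (p : ℕ) : ℕ := Nat.findGreatest (fun k => s.a k ≤ p) p

theorem blk_le (p : ℕ) : s.blk p ≤ p := Nat.findGreatest_le p

theorem blk_eq (k p : ℕ) (h1 : s.a k ≤ p) (h2 : p < s.a (k + 1)) : s.blk p = k := by
  unfold blk
  rw [Nat.findGreatest_eq_iff]
  refine ⟨(s.mono.le_apply).trans h1, fun _ => h1, fun n hn _ hcon => ?_⟩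
  have := s.mono.monotone (Nat.succ_le_of_lt hn)
  simp only [Nat.succ_eq_add_one] at this
  omega

/-- the shift at place `p` -/
noncomputable def shift (p : ℕ) (z y : Om) : Fin 2 :=
  if h : p - s.a (s.blk p) < s.a (s.blk p + 1) - s.a (s.blk p) then
    s.F (s.blk p) (pre _ z, pre _ y) ⟨p - s.a (s.blk p), h⟩ else 0

theorem shift_eq (p k : ℕ) (hk : s.blk p = k) (h : p - s.a k < s.a (k + 1) - s.a k) (z y : Om) :
    s.shift p z y = s.F k (pre k z, pre k y) ⟨p - s.a k, h⟩ := by
  subst hk
  unfold shift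
  rw [dif_pos h]

/-- the triangular map -/
noncomputable def phi (z y : Om) : Om := fun p => y p + s.shift p z y

theorem word_phi (k : ℕ) (z y : Om) : word (s.a k) (s.a (k + 1) - s.a k) (s.phi z y) =
    word (s.a k) (s.a (k + 1) - s.a k) y + s.F k (pre k z, pre k y) := by
  funext i
  show y (s.a k + i) + s.shift (s.a k + i) z y = y (s.a k + i) + s.F k (pre k z, pre k y) i
  have hi := i.2
  rw [s.shift_eq (s.a k + i) k (s.blk_eq k _ (by omega) (by omega)) (by omega)]
  congr 2
  apply Fin.ext
  simp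

theorem pre_congr {k n : ℕ} (h : k ≤ n) {x y : Om} (hxy : ∀ i < n, x i = y i) :
    pre k x = pre k y := by
  funext i
  exact hxy i (lt_of_lt_of_le i.2 h)

theorem shift_congr (p : ℕ) (z : Om) {x y : Om} (hxy : ∀ i < p, x i = y i) :
    s.shift p z x = s.shift p z y := by
  unfold shift
  split_ifs with h
  · rw [pre_congr (s.blk_le p) hxy]
  · rfl

theorem measurable_pre (k : ℕ) : Measurable (pre k) :=
  measurable_pi_lambda _ fun _ => measurable_pi_apply _

theorem measurable_phi : Measurable (fun q : Om × Om => s.phi q.1 q.2) := by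
  refine measurable_pi_lambda _ fun p => ?_
  have h1 : Measurable fun q : Om × Om => q.2 p := (measurable_pi_apply p).comp measurable_snd
  have h2 : Measurable fun q : Om × Om => s.shift p q.1 q.2 := by
    unfold shift
    split_ifs with h
    · have h3 : Measurable fun q : Om × Om => (pre (s.blk p) q.1, pre (s.blk p) q.2) :=
        ((measurable_pre _).comp measurable_fst).prodMk ((measurable_pre _).comp measurable_snd)
      exact (Measurable.of_discrete (f := fun r => s.F (s.blk p) r ⟨p - s.a (s.blk p), h⟩)).comp h3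
    · exact measurable_const
  have h4 : Measurable fun r : Fin 2 × Fin 2 => r.1 + r.2 := Measurable.of_discrete
  exact h4.comp (h1.prodMk h2)

theorem measurable_phi_right (z : Om) : Measurable (s.phi z) :=
  (s.measurable_phi).comp (measurable_const.prodMk measurable_id)

theorem phi_cyl (z x : Om) (n : ℕ) :
    ∃ x' : Om, ∀ y : Om, (∀ i < n, s.phi z y i = x i) ↔ (∀ i < n, y i = x' i) := by
  induction n with
  | zero => exact ⟨x, fun y => by simp⟩
  | succ n ih =>
    obtain ⟨x', hx'⟩ := ih
    refine ⟨Function.update x' n (x n - s.shift n z x'), fun y => ?_⟩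
    have h1 : ∀ u v : Om, (∀ i < n + 1, u i = v i) ↔ (∀ i < n, u i = v i) ∧ u n = v n := by
      intro u v
      constructor
      · intro h
        exact ⟨fun i hi => h i (by omega), h n (by omega)⟩
      · rintro ⟨h2, h3⟩ i hi
        rcases Nat.lt_succ_iff_lt_or_eq.mp hi with h | h
        · exact h2 i h
        · rw [h]; exact h3
    rw [h1, h1, hx' y]
    have h2 : (∀ i < n, y i = Function.update x' n (x n - s.shift n z x') i) ↔
        ∀ i < n, y i = x' i := by
      constructor
      · intro h i hi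
        rw [h i hi, Function.update_of_ne (by omega)]
      · intro h i hi
        rw [h i hi, Function.update_of_ne (by omega)]
    rw [h2, Function.update_self]
    constructor
    · rintro ⟨h3, h4⟩
      refine ⟨h3, ?_⟩
      have h5 : y n + s.shift n z y = x n := h4
      rw [← h5, s.shift_congr n z h3]
      abel
    · rintro ⟨h3, h4⟩
      refine ⟨h3, ?_⟩
      show y n + s.shift n z y = x n
      rw [h4, s.shift_congr n z h3]
      abel

/-- the triangular maps preserve the uniform measure -/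
theorem mp_phi (z : Om) : MeasurePreserving (s.phi z) (nu 2) (nu 2) := by
  refine ⟨s.measurable_phi_right z, ?_⟩
  have : IsProbabilityMeasure (Measure.map (s.phi z) (nu 2)) :=
    Measure.isProbabilityMeasure_map (s.measurable_phi_right z).aemeasurable
  refine ext_cyl fun x n => ?_
  have hmeas : MeasurableSet (PiNat.cylinder x n) := (PiNat.isOpen_cylinder _ x n).measurableSet
  rw [Measure.map_apply (s.measurable_phi_right z) hmeas, nu_cylinder]
  obtain ⟨x', hx'⟩ := s.phi_cyl z x n
  have h1 : s.phi z ⁻¹' PiNat.cylinder x n = PiNat.cylinder x' n := by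
    ext y
    simp only [mem_preimage, PiNat.mem_cylinder_iff]
    exact hx' y
  rw [h1, nu_cylinder]

end Sh

/-- finitely many distinct sequences have distinct prefixes -/
theorem exists_sep {ι : Type} [Finite ι] {f : ι → Om} (hf : Function.Injective f) :
    ∃ k₀ : ℕ, ∀ k ≥ k₀, Function.Injective fun i => pre k (f i) := by
  classical
  have : Fintype ι := Fintype.ofFinite ι
  have h1 : ∀ q : ι × ι, ∃ m : ℕ, q.1 ≠ q.2 → f q.1 m ≠ f q.2 m := by
    intro q
    by_cases h : q.1 = q.2
    · exact ⟨0, fun h' => absurd h h'⟩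
    · have h2 : f q.1 ≠ f q.2 := fun h3 => h (hf h3)
      obtain ⟨m, hm⟩ := Function.ne_iff.mp h2
      exact ⟨m, fun _ => hm⟩
  choose m hm using h1
  refine ⟨(Finset.univ.sup m) + 1, fun k hk i j hij => ?_⟩
  by_contra hne
  have h2 := hm (i, j) hne
  have h3 : m (i, j) < k := by
    have : m (i, j) ≤ Finset.univ.sup m := Finset.le_sup (Finset.mem_univ _)
    omega
  exact h2 (congrFun hij ⟨m (i, j), h3⟩)

/-- `A` is a family of sets whose words in the block of length `L` at the place `a` lie in few small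
sets -/
def Small {T : Type} (A : T → Set Om) (a L I w : ℕ) : Prop :=
  ∃ W : Fin I → Finset (Fin L → Fin 2), (∀ i, (W i).card ≤ w) ∧
    ∀ t, ∃ i, ∀ x ∈ A t, word a L x ∈ W i

/-- the property of a shift relative to a family of sets -/
structure Good {T : Type} (A : T → Set Om) (r k a L : ℕ)
    (F : (Fin k → Fin 2) × (Fin k → Fin 2) → (Fin L → Fin 2)) : Prop where
  one : ∀ (u : Fin k → Fin 2) (v : Fin L → Fin 2) (g : Fin r → (Fin k → Fin 2)),
    Function.Injective g → ∀ t : T, ∃ b, ∀ x ∈ A t, word a L x ≠ v + F (g b, u)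
  two : ∀ (u : Fin r → (Fin k → Fin 2)) (v : Fin r → (Fin L → Fin 2))
    (g : Fin r → (Fin k → Fin 2)), Function.Injective u → Function.Injective g →
    ∀ t : Fin r → T, ∃ b c, ∀ x ∈ A (t b), word a L x ≠ v c + F (g b, u c)

theorem exists_good {T : Type} (A : T → Set Om) (r k a L I w : ℕ) (hr : 0 < r)
    (hA : Small A a L I w)
    (h : 2 * ((2 ^ k) ^ (r + 1) * 2 ^ L * I * w ^ r) < (2 ^ L) ^ r) :
    ∃ F, Good A r k a L F := by
  obtain ⟨W, hW, hAW⟩ := hA
  obtain ⟨F, h1, h2⟩ := exists_shift (P := Fin k → Fin 2) (G := Fin L → Fin 2) (I := Fin I) W w r hr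
    hW (by simpa using h)
  refine ⟨F, ?_, ?_⟩
  · intro u v g hg t
    obtain ⟨i, hi⟩ := hAW t
    obtain ⟨b, hb⟩ := h1 u v g hg i
    refine ⟨b, fun x hx hcon => hb ?_⟩
    rw [← hcon]
    exact hi x hx
  · intro u v g hu hg t
    choose i hi using fun b => hAW (t b)
    obtain ⟨b, c, hb⟩ := h2 u v g hu hg i
    refine ⟨b, c, fun x hx hcon => hb ?_⟩
    rw [← hcon]
    exact hi b x hx

/-- construction of the blocks -/
theorem exists_Sh {T : Type} (A : ℕ → T → Set Om) (r : ℕ → ℕ)
    (h : ∀ j k a : ℕ, ∃ n, a < n ∧ ∃ F, Good (A j) (r j) k a (n - a) F) :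
    ∃ s : Sh, ∀ k, Good (A k.unpair.1) (r k.unpair.1) k (s.a k) (s.a (k + 1) - s.a k) (s.F k) := by
  choose n hn F hF using h
  let a : ℕ → ℕ := fun k => Nat.rec 0 (fun k a => n k.unpair.1 k a) k
  have ha : ∀ k, a (k + 1) = n k.unpair.1 k (a k) := fun k => rfl
  refine ⟨⟨a, strictMono_nat_of_lt_succ fun k => ?_, fun k => F k.unpair.1 k (a k)⟩, fun k => ?_⟩
  · rw [ha]
    exact hn _ _ _
  · exact hF _ _ _

variable {T : Type} {A : ℕ → T → Set Om} {r : ℕ → ℕ} {s : Sh}

theorem exists_place (j K : ℕ) : ∃ k ≥ K, k.unpair.1 = j :=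
  ⟨Nat.pair j K, Nat.right_le_pair j K, by rw [Nat.unpair_pair]⟩

/-- for fixed `y` few `z` give elements of a set of the family -/
theorem finite_one (hs : ∀ k, Good (A k.unpair.1) (r k.unpair.1) k (s.a k)
    (s.a (k + 1) - s.a k) (s.F k)) (y : Om) (j : ℕ) (t : T) : {z : Om | s.phi z y ∈ A j t}.Finite := by
  by_contra hinf
  have hinf' : {z : Om | s.phi z y ∈ A j t}.Infinite := hinf
  have := hinf'.to_subtype
  let g : Fin (r j) → {z : Om | s.phi z y ∈ A j t} := fun i => Infinite.natEmbedding _ (i : ℕ)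
  have hg : Function.Injective fun i => (g i : Om) := by
    intro i i' hij
    have h1 := (Infinite.natEmbedding _).injective (Subtype.ext hij)
    exact Fin.ext h1
  obtain ⟨K, hK⟩ := exists_sep hg
  obtain ⟨k, hk, rfl⟩ := exists_place j K
  obtain ⟨b, hb⟩ := (hs k).one (pre k y) (word (s.a k) (s.a (k + 1) - s.a k) y)
    (fun i => pre k (g i : Om)) (hK k hk) t
  exact hb _ (g b).2 (s.word_phi k _ y)

theorem two_cond (hs : ∀ k, Good (A k.unpair.1) (r k.unpair.1) k (s.a k)
    (s.a (k + 1) - s.a k) (s.F k)) (j : ℕ) (u g : Fin (r j) → Om) (hu : Function.Injective u)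
    (hg : Function.Injective g) (t : Fin (r j) → T) : ∃ b c, s.phi (g b) (u c) ∉ A j (t b) := by
  obtain ⟨K1, hK1⟩ := exists_sep hg
  obtain ⟨K2, hK2⟩ := exists_sep hu
  obtain ⟨k, hk, rfl⟩ := exists_place j (max K1 K2)
  obtain ⟨b, c, h⟩ := (hs k).two (fun i => pre k (u i))
    (fun i => word (s.a k) (s.a (k + 1) - s.a k) (u i)) (fun i => pre k (g i))
    (hK2 k ((le_max_right _ _).trans hk)) (hK1 k ((le_max_left _ _).trans hk)) t
  exact ⟨b, c, fun hcon => h _ hcon (s.word_phi k _ _)⟩

end Pool.Agent.Y508.TN
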