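import Pool.Agent.Y508.TN.Full

/-! All similar copies at once. -/

set_option autoImplicit false
set_option linter.all false

namespace Pool.Agent.Y508.TN

open MeasureTheory Set Cardinal
open Pool.Agent.H339R3.CN (nu nu_cylinder ext_cyl mp_ofDigits mp_digits)

theorem small_of_fintype {T ι : Type} [Fintype ι] (A : T → Set Om) (a L I w : ℕ)
    (W : ι → Finset (Fin L → Fin 2)) (hι : Fintype.card ι ≤ I) (hW : ∀ i, (W i).card ≤ w)
    (hA : ∀ t, ∃ i, ∀ x ∈ A t, word a L x ∈ W i) : Small A a L I w := by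
  classical
  refine ⟨fun i => if h : (i : ℕ) < Fintype.card ι then W ((Fintype.equivFin ι).symm ⟨i, h⟩) else ∅,
    fun i => ?_, fun t => ?_⟩
  · show (if h : (i : ℕ) < Fintype.card ι then W ((Fintype.equivFin ι).symm ⟨i, h⟩) else ∅).card ≤ w
    split_ifs with h
    · exact hW _
    · simp
  · obtain ⟨i, hi⟩ := hA t
    have h1 : ((Fintype.equivFin ι i : ℕ)) < Fintype.card ι := (Fintype.equivFin ι i).2
    refine ⟨⟨Fintype.equivFin ι i, h1.trans_le hι⟩, fun x hx => ?_⟩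
    show word a L x ∈ (if h : ((Fintype.equivFin ι i : ℕ)) < Fintype.card ι then
      W ((Fintype.equivFin ι).symm ⟨(Fintype.equivFin ι i : ℕ), h⟩) else ∅)
    rw [dif_pos h1]
    have h2 : (⟨(Fintype.equivFin ι i : ℕ), h1⟩ : Fin (Fintype.card ι)) = Fintype.equivFin ι i := rfl
    rw [h2, Equiv.symm_apply_apply]
    exact hi x hx

/-- the sequences whose images under an affine map lie in `K` -/
def AS (K : Set ℝ) (M : ℕ) (p : ℝ × ℝ) : Set Om :=
  {x | |p.1|⁻¹ ≤ 2 ^ M ∧ p.1 ≠ 0 ∧ p.1 * Real.ofDigits x + p.2 ∈ K}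

open scoped Classical in
/-- the words of the sequences whose integers are close to given ones -/
noncomputable def VV (n a : ℕ) (S : Finset ℤ) (E : ℕ) (f : ℤ → ℤ) : Finset (Fin (n - a) → Fin 2) :=
  Finset.univ.filter fun v => ∃ x : Om, word a (n - a) x = v ∧
    ∃ e ∈ Finset.Icc (-(E : ℤ)) E, ∃ c ∈ S, (J n x : ℤ) = f c + e

theorem mem_VV (n a : ℕ) (S : Finset ℤ) (E : ℕ) (f : ℤ → ℤ) (v : Fin (n - a) → Fin 2) :
    v ∈ VV n a S E f ↔ ∃ x : Om, word a (n - a) x = v ∧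
    ∃ e ∈ Finset.Icc (-(E : ℤ)) E, ∃ c ∈ S, (J n x : ℤ) = f c + e := by
  simp only [VV, Finset.mem_filter, Finset.mem_univ, true_and]

theorem card_VV (n a : ℕ) (S : Finset ℤ) (E : ℕ) (f : ℤ → ℤ) :
    (VV n a S E f).card ≤ (2 * E + 1) * S.card := by
  classical
  have h1 : ∀ v ∈ VV n a S E f, ∃ x : Om, word a (n - a) x = v ∧
      ∃ e ∈ Finset.Icc (-(E : ℤ)) E, ∃ c ∈ S, (J n x : ℤ) = f c + e :=
    fun v hv => (mem_VV n a S E f v).1 hv
  choose! x hx1 hx2 using h1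
  have h2 : (VV n a S E f).card ≤ ((S ×ˢ (Finset.Icc (-(E : ℤ)) E)).image
      fun q => f q.1 + q.2).card := by
    refine Finset.card_le_card_of_injOn (fun v => (J n (x v) : ℤ)) ?_ ?_
    · intro v hv
      obtain ⟨e, he, c, hc, h⟩ := hx2 v hv
      rw [Finset.mem_coe, Finset.mem_image]
      exact ⟨(c, e), Finset.mem_product.2 ⟨hc, he⟩, h.symm⟩
    · intro v hv v' hv' h
      have h' : (J n (x v) : ℤ) = J n (x v') := h
      have h3 : J n (x v) = J n (x v') := by exact_mod_cast h'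
      have h4 := J_inj n _ _ h3
      rw [← hx1 v hv, ← hx1 v' hv']
      funext b
      exact h4 _ (by have := b.2; omega)
  refine h2.trans (Finset.card_image_le.trans ?_)
  rw [Finset.card_product, Int.card_Icc, mul_comm]
  refine Nat.mul_le_mul_right _ ?_
  omega

theorem small_AS (K : Set ℝ) (hK : K ⊆ Ico 0 1) (M n a : ℕ) (han : a ≤ n) (S : Finset ℤ)
    (hS : boxes K n ⊆ S) :
    Small (AS K M) a (n - a) (2 ^ (2 * n + 2 * M + 8)) (2 ^ (M + 4) * S.card) := by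
  classical
  obtain ⟨E, hE⟩ : ∃ E : ℕ, E = 2 ^ M + 3 := ⟨_, rfl⟩
  obtain ⟨B1, hB1⟩ : ∃ B1 : ℤ, B1 = 2 ^ (n + M) + 1 := ⟨_, rfl⟩
  obtain ⟨B2, hB2⟩ : ∃ B2 : ℤ, B2 = 2 ^ (n + M + 3) := ⟨_, rfl⟩
  have hV : ∀ f : ℤ → ℤ, (VV n a S E f).card ≤ 2 ^ (M + 4) * S.card := by
    intro f
    refine (card_VV n a S E f).trans (Nat.mul_le_mul_right _ ?_)
    rw [hE, pow_add]
    have : 1 ≤ 2 ^ M := Nat.one_le_two_pow
    omega
  let ι := {i : ℤ × ℤ // i ∈ (Finset.Icc (-B1) B1) ×ˢ (Finset.Icc (-B2) B2)}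
  refine small_of_fintype (ι := ι) (AS K M) a (n - a) _ _
    (fun i => VV n a S E fun c => ⌊((i.1.1 * c : ℤ) : ℝ) / 2 ^ n⌋ + i.1.2) ?_ (fun i => hV _) ?_
  · rw [Fintype.card_coe, Finset.card_product, Int.card_Icc, Int.card_Icc]
    have h5 : B1 + 1 - -B1 = ((2 * 2 ^ (n + M) + 3 : ℕ) : ℤ) := by rw [hB1]; push_cast; ring
    have h6 : B2 + 1 - -B2 = ((16 * 2 ^ (n + M) + 1 : ℕ) : ℤ) := by
      rw [hB2, pow_add _ (n + M) 3]; push_cast; ring
    rw [h5, h6, Int.toNat_natCast, Int.toNat_natCast]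
    have h7 : 1 ≤ 2 ^ (n + M) := Nat.one_le_two_pow
    calc (2 * 2 ^ (n + M) + 3) * (16 * 2 ^ (n + M) + 1)
        ≤ (8 * 2 ^ (n + M)) * (32 * 2 ^ (n + M)) := Nat.mul_le_mul (by omega) (by omega)
      _ = 2 ^ (2 * n + 2 * M + 8) := by
        rw [show 2 * n + 2 * M + 8 = (n + M) + (n + M) + 8 by ring, pow_add, pow_add]
        ring
  · rintro ⟨b, t⟩
    by_cases hne : (AS K M (b, t)).Nonempty
    · obtain ⟨x₀, hx₀⟩ := hne
      set β := b⁻¹ with hβ
      set γ := -(β * 2 ^ n * t) with hγ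
      set i1 := ⌊2 ^ n * β⌋ with hi1
      set i2 := ⌊γ⌋ with hi2
      -- the estimate
      have main : ∀ x ∈ AS K M (b, t), ∃ c ∈ S, -(E : ℤ) ≤ (J n x : ℤ) - ⌊((i1 * c : ℤ) : ℝ) / 2 ^ n⌋ - i2 ∧
          (J n x : ℤ) - ⌊((i1 * c : ℤ) : ℝ) / 2 ^ n⌋ - i2 ≤ E ∧
          -B1 ≤ i1 ∧ i1 ≤ B1 ∧ -B2 ≤ i2 ∧ i2 ≤ B2 := by
        rintro x ⟨hb1, hb2, hxK⟩
        simp only at hb1 hb2 hxK
        have hb1' : |β| ≤ 2 ^ M := by rw [hβ, abs_inv]; exact hb1
        rw [abs_le] at hb1'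
        obtain ⟨q, hq0, hq1, hq⟩ := J_scaled n x
        set y := b * Real.ofDigits x + t with hy
        have hy01 := hK hxK
        set c := ⌊2 ^ n * y⌋ with hc
        have hcS : c ∈ S := hS ⟨_, hxK, rfl⟩
        have hpos : (0 : ℝ) < 2 ^ n := by positivity
        have hposM : (1 : ℝ) ≤ 2 ^ M := one_le_pow₀ (by norm_num)
        have f1 := Int.floor_le (2 ^ n * y)
        have f2 := Int.lt_floor_add_one (2 ^ n * y)
        rw [← hc] at f1 f2
        have c0 : 0 ≤ c := by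
          rw [hc, Int.floor_nonneg]
          have := hy01.1
          positivity
        have c1 : (c : ℝ) < 2 ^ n := by nlinarith [hy01.2]
        have c0' : (0 : ℝ) ≤ c := by exact_mod_cast c0
        -- the exact formula
        have eJ : (J n x : ℝ) = β * (2 ^ n * y) + γ - q := by
          have e1 : β * (2 ^ n * y) + γ = 2 ^ n * Real.ofDigits x := by
            rw [hy, hγ, hβ]
            field_simp
            ring
          linarith
        have g1 := Int.floor_le (2 ^ n * β)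
        have g2 := Int.lt_floor_add_one (2 ^ n * β)
        rw [← hi1] at g1 g2
        have k1 := Int.floor_le γ
        have k2 := Int.lt_floor_add_one γ
        rw [← hi2] at k1 k2
        set f := ⌊((i1 * c : ℤ) : ℝ) / 2 ^ n⌋ with hf
        have l1 := Int.floor_le (((i1 * c : ℤ) : ℝ) / 2 ^ n)
        have l2 := Int.lt_floor_add_one (((i1 * c : ℤ) : ℝ) / 2 ^ n)
        rw [← hf] at l1 l2
        -- `θ₁ c / 2 ^ n`
        have m1 : β * c = ((i1 * c : ℤ) : ℝ) / 2 ^ n + (2 ^ n * β - i1) * c / 2 ^ n := by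
          push_cast
          field_simp
          ring
        have m2 : 0 ≤ (2 ^ n * β - i1) * c / 2 ^ n := by
          apply div_nonneg _ hpos.le
          exact mul_nonneg (by linarith) c0'
        have m3 : (2 ^ n * β - i1) * c / 2 ^ n ≤ 1 := by
          rw [div_le_one hpos]
          nlinarith
        -- `β θ`
        have m4 : β * (2 ^ n * y) = β * c + β * (2 ^ n * y - c) := by ring
        have m5 : |β * (2 ^ n * y - c)| ≤ 2 ^ M := by
          rw [abs_mul]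
          have e2 : |2 ^ n * y - (c : ℝ)| ≤ 1 := by
            rw [abs_le]
            constructor <;> linarith
          have e3 : |β| ≤ 2 ^ M := abs_le.2 hb1'
          calc |β| * |2 ^ n * y - (c : ℝ)| ≤ 2 ^ M * 1 := by gcongr
            _ = 2 ^ M := mul_one _
        rw [abs_le] at m5
        have n1 : (-E : ℝ) ≤ (J n x : ℝ) - f - i2 := by
          rw [hE]
          push_cast
          linarith [m5.1]
        have n2 : (J n x : ℝ) - f - i2 ≤ E := by
          rw [hE]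
          push_cast
          linarith [m5.2]
        have n1' : -(E : ℤ) ≤ (J n x : ℤ) - f - i2 := by exact_mod_cast n1
        have n2' : (J n x : ℤ) - f - i2 ≤ E := by exact_mod_cast n2
        -- bounds of the indices
        have p1 : (i1 : ℝ) ≤ B1 := by
          rw [hB1]; push_cast
          rw [pow_add]
          nlinarith [hb1'.2]
        have p2 : (-B1 : ℝ) ≤ i1 := by
          rw [hB1]; push_cast
          rw [pow_add]
          nlinarith [hb1'.1]
        have p1' : i1 ≤ B1 := by exact_mod_cast p1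
        have p2' : -B1 ≤ i1 := by exact_mod_cast p2
        have fabs : |((i1 * c : ℤ) : ℝ) / 2 ^ n| ≤ B1 := by
          rw [abs_div, abs_of_pos hpos, div_le_iff₀ hpos]
          push_cast
          rw [abs_mul, abs_of_nonneg c0']
          have : |(i1 : ℝ)| ≤ B1 := abs_le.2 ⟨p2, p1⟩
          have hBpos : (0 : ℝ) ≤ B1 := (abs_nonneg _).trans this
          exact mul_le_mul this c1.le c0' hBpos
        rw [abs_le] at fabs
        have hJle : (J n x : ℝ) ≤ 2 ^ n := by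
          have := Real.ofDigits_le_one x
          nlinarith
        have hJ0 : (0 : ℝ) ≤ J n x := Nat.cast_nonneg _
        have hnM : (2 : ℝ) ^ (n + M) = 2 ^ n * 2 ^ M := pow_add _ _ _
        have hn1 : (1 : ℝ) ≤ 2 ^ n := one_le_pow₀ (by norm_num)
        have hx1 : (2 : ℝ) ^ n ≤ 2 ^ (n + M) := by rw [hnM]; nlinarith
        have hx2 : (2 : ℝ) ^ M ≤ 2 ^ (n + M) := by rw [hnM]; nlinarith
        have hx3 : (1 : ℝ) ≤ 2 ^ (n + M) := hn1.trans hx1
        have hB2' : (B2 : ℝ) = 8 * 2 ^ (n + M) := by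
          rw [hB2]; push_cast; rw [pow_add _ (n + M) 3]; ring
        have hB1' : (B1 : ℝ) = 2 ^ (n + M) + 1 := by rw [hB1]; push_cast; ring
        have hE' : (E : ℝ) = 2 ^ M + 3 := by rw [hE]; push_cast; ring
        rw [hB1'] at fabs
        rw [hE'] at n1 n2
        have q1 : (i2 : ℝ) ≤ B2 := by
          rw [hB2']
          linarith [fabs.1]
        have q2 : (-B2 : ℝ) ≤ i2 := by
          rw [hB2']
          linarith [fabs.2]
        have q1' : i2 ≤ B2 := by exact_mod_cast q1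
        have q2' : -B2 ≤ i2 := by exact_mod_cast q2
        exact ⟨c, hcS, n1', n2', p2', p1', q2', q1'⟩
      obtain ⟨-, -, -, -, b1, b2, b3, b4⟩ := main x₀ hx₀
      refine ⟨⟨(i1, i2), ?_⟩, fun x hx => ?_⟩
      · rw [Finset.mem_product, Finset.mem_Icc, Finset.mem_Icc]
        exact ⟨⟨b1, b2⟩, ⟨b3, b4⟩⟩
      · obtain ⟨c, hc, h1, h2, -⟩ := main x hx
        rw [mem_VV]
        refine ⟨x, rfl, (J n x : ℤ) - ⌊((i1 * c : ℤ) : ℝ) / 2 ^ n⌋ - i2,
          Finset.mem_Icc.2 ⟨h1, h2⟩, c, hc, ?_⟩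
        show (J n x : ℤ) = ⌊((i1 * c : ℤ) : ℝ) / 2 ^ n⌋ + i2 + _
        ring
    · rw [not_nonempty_iff_eq_empty] at hne
      refine ⟨⟨(0, 0), ?_⟩, fun x hx => ?_⟩
      · rw [Finset.mem_product, Finset.mem_Icc, Finset.mem_Icc]
        have h1 : (0 : ℤ) ≤ B1 := by rw [hB1]; positivity
        have h2 : (0 : ℤ) ≤ B2 := by rw [hB2]; positivity
        exact ⟨⟨by simpa using h1, h1⟩, ⟨by simpa using h2, h2⟩⟩
      · rw [hne] at hx
        exact absurd hx (notMem_empty _)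

/-- the numerical condition -/
theorem num2 (M m k a n s : ℕ) (hm : 0 < m) (hs : s ^ m ≤ 2 ^ ((m - 1) * n))
    (hn : 9 + k * (4 * m + 1) + 2 * M + (M + 4) * (4 * m) + 4 * m * a < n) :
    2 * ((2 ^ k) ^ (4 * m + 1) * 2 ^ (n - a) * 2 ^ (2 * n + 2 * M + 8) *
      (2 ^ (M + 4) * s) ^ (4 * m)) < (2 ^ (n - a)) ^ (4 * m) := by
  obtain ⟨l, rfl⟩ : ∃ l, m = l + 1 := ⟨m - 1, by omega⟩
  have han : a ≤ n := by
    have h0 : a ≤ 4 * (l + 1) * a := Nat.le_mul_of_pos_left a (by positivity)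
    omega
  obtain ⟨d, rfl⟩ : ∃ d, n = a + d := ⟨n - a, by omega⟩
  rw [Nat.add_sub_cancel] at hs
  rw [Nat.add_sub_cancel_left]
  have h1 : (2 ^ (M + 4) * s) ^ (4 * (l + 1)) ≤
      2 ^ ((M + 4) * (4 * (l + 1))) * 2 ^ (4 * (l * (a + d))) := by
    rw [mul_pow]
    have e2 : s ^ (4 * (l + 1)) ≤ 2 ^ (4 * (l * (a + d))) := by
      calc s ^ (4 * (l + 1)) = (s ^ (l + 1)) ^ 4 := by rw [← pow_mul, mul_comm]
        _ ≤ (2 ^ (l * (a + d))) ^ 4 := Nat.pow_le_pow_left hs _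
        _ = _ := by rw [← pow_mul, mul_comm]
    exact Nat.mul_le_mul (by rw [← pow_mul]) e2
  have h2 : 2 * ((2 ^ k) ^ (4 * (l + 1) + 1) * 2 ^ d * 2 ^ (2 * (a + d) + 2 * M + 8) *
      (2 ^ (M + 4) * s) ^ (4 * (l + 1))) ≤
      2 ^ (9 + k * (4 * (l + 1) + 1) + 2 * M + (M + 4) * (4 * (l + 1)) + (2 * a + 3 * d) +
        4 * (l * (a + d))) := by
    calc _ ≤ 2 * ((2 ^ k) ^ (4 * (l + 1) + 1) * 2 ^ d * 2 ^ (2 * (a + d) + 2 * M + 8) *
          (2 ^ ((M + 4) * (4 * (l + 1))) * 2 ^ (4 * (l * (a + d))))) := by gcongr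
      _ = _ := by
        rw [← pow_mul, ← pow_add, ← pow_add, ← pow_add, ← pow_add, ← pow_succ']
        congr 1
        ring
  refine lt_of_le_of_lt h2 ?_
  rw [← pow_mul]
  refine Nat.pow_lt_pow_right (by norm_num) ?_
  nlinarith

theorem exists_X_sim (K : ℕ → Set ℝ) (h01 : ∀ j, K j ⊆ Ico 0 1) (hK : ∀ j, Low (K j)) :
    ∃ X : Set Om, nu 2 X ≠ 0 ∧
      ((∀ (j : ℕ) p, (X ∩ AS (K j.unpair.1) j.unpair.2 p).Finite) ∨
      ((∀ (j : ℕ) p, #(X ∩ AS (K j.unpair.1) j.unpair.2 p : Set Om) < 𝔠) ∧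
        ∀ E : Set Om, #E < 𝔠 → nu 2 E = 0)) := by
  choose m hm0 hm using fun j => (hK j).nat
  obtain ⟨s, hs⟩ := exists_Sh (fun j : ℕ => AS (K j.unpair.1) j.unpair.2)
    (fun j : ℕ => 4 * m j.unpair.1)
    (fun (j k a : ℕ) => by
    obtain ⟨n, hn, S, hS1, hS2⟩ := hm j.unpair.1 (9 + k * (4 * m j.unpair.1 + 1) +
      2 * j.unpair.2 + (j.unpair.2 + 4) * (4 * m j.unpair.1) + 4 * m j.unpair.1 * a)
    have han : a < n := by
      have h0 : a ≤ 4 * m j.unpair.1 * a :=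
        Nat.le_mul_of_pos_left a (by have := hm0 j.unpair.1; positivity)
      omega
    refine ⟨n, han, ?_⟩
    refine exists_good (AS (K j.unpair.1) j.unpair.2) (4 * m j.unpair.1) k a (n - a)
      (2 ^ (2 * n + 2 * j.unpair.2 + 8)) (2 ^ (j.unpair.2 + 4) * S.card)
      (by have := hm0 j.unpair.1; positivity)
      (small_AS (K j.unpair.1) (h01 _) j.unpair.2 n a han.le S hS1) ?_
    exact num2 j.unpair.2 (m j.unpair.1) k a n S.card (hm0 _) hS2 hn)
  exact exists_X (A := fun j : ℕ => AS (K j.unpair.1) j.unpair.2) (r := fun j : ℕ => 4 * m j.unpair.1)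
    (s := s) (by rw [Cardinal.mk_prod, Cardinal.lift_uzero, Cardinal.mk_real]; simp) hs

end Pool.Agent.Y508.TN
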