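import Pool.Agent.Y508.TN.Box

/-! Universally null sets of reals. -/

set_option autoImplicit false
set_option linter.all false

namespace Pool.Agent.Y508.TN

open MeasureTheory Set Cardinal ProbabilityTheory
open Pool.Agent.H339R3.CN (nu nu_cylinder ext_cyl mp_ofDigits mp_digits)

theorem continuous_cdf (μ : Measure ℝ) [IsProbabilityMeasure μ] [NullSingletonClass μ] :
    Continuous (cdf μ) := by
  rw [continuous_iff_continuousAt]
  intro x
  rw [(monotone_cdf μ).continuousAt_iff_leftLim_eq_rightLim]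
  have h1 : μ {x} = 0 := measure_singleton x
  rw [← measure_cdf μ, StieltjesFunction.measure_singleton, ENNReal.ofReal_eq_zero] at h1
  have h2 : Function.leftLim (cdf μ) x ≤ cdf μ x := (monotone_cdf μ).leftLim_le le_rfl
  have h3 : Function.rightLim (cdf μ) x = cdf μ x := (cdf μ).rightLim_eq x
  rw [h3]
  exact le_antisymm h2 (by linarith)

/-- the distribution function of an atomless measure maps it to Lebesgue measure -/
theorem map_cdf (μ : Measure ℝ) [IsProbabilityMeasure μ] [NullSingletonClass μ] :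
    μ.map (cdf μ) = volume.restrict (Ioc (0 : ℝ) 1) := by
  have hm : Measurable (cdf μ) := (monotone_cdf μ).measurable
  haveI : IsProbabilityMeasure (μ.map (cdf μ)) := Measure.isProbabilityMeasure_map hm.aemeasurable
  refine Measure.ext_of_Iic _ _ fun a => ?_
  rw [Measure.map_apply hm measurableSet_Iic, Measure.restrict_apply measurableSet_Iic]
  have e : Iic a ∩ Ioc (0 : ℝ) 1 = Ioc 0 (min a 1) := by
    ext x
    simp only [mem_inter_iff, mem_Iic, mem_Ioc, le_min_iff]
    tauto
  rw [e, Real.volume_Ioc, sub_zero]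
  have hc := continuous_cdf μ
  set F := cdf μ with hF
  rcases lt_or_ge a 0 with h0 | h0
  · have h1 : F ⁻¹' Iic a = ∅ := by
      rw [eq_empty_iff_forall_notMem]
      intro x hx
      have h2 : F x ≤ a := hx
      have h3 := cdf_nonneg μ x
      rw [← hF] at h3
      linarith
    rw [h1, measure_empty, eq_comm, ENNReal.ofReal_eq_zero]
    exact (min_le_left _ _).trans h0.le
  rcases le_or_gt 1 a with h1 | h1
  · have h2 : F ⁻¹' Iic a = Set.univ := by
      rw [eq_univ_iff_forall]
      intro x
      exact (cdf_le_one μ x).trans h1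
    rw [h2, measure_univ, min_eq_right h1, ENNReal.ofReal_one]
  rw [min_eq_left h1.le]
  by_cases hne : (F ⁻¹' Iic a).Nonempty
  · have hbdd : BddAbove (F ⁻¹' Iic a) := by
      have h2 := (tendsto_cdf_atTop μ).eventually (lt_mem_nhds h1)
      obtain ⟨b, hb⟩ := h2.exists
      refine ⟨b, fun x hx => ?_⟩
      by_contra hlt
      have h3 := (monotone_cdf μ) (not_le.1 hlt).le
      have h4 : F x ≤ a := hx
      rw [← hF] at h3
      have hb' : a < F b := hb
      linarith
    have hcl : IsClosed (F ⁻¹' Iic a) := isClosed_Iic.preimage hc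
    set x₀ := sSup (F ⁻¹' Iic a) with hx₀
    have hmem : x₀ ∈ F ⁻¹' Iic a := hcl.csSup_mem hne hbdd
    have hI : F ⁻¹' Iic a = Iic x₀ := by
      ext x
      constructor
      · intro hx
        exact le_csSup hbdd hx
      · intro hx
        exact ((monotone_cdf μ) hx).trans hmem
    have hge : a ≤ F x₀ := by
      by_contra hlt
      push Not at hlt
      have h2 : ∀ᶠ x in nhds x₀, F x < a := (hc.tendsto x₀).eventually (gt_mem_nhds hlt)
      obtain ⟨ε, hε, h3⟩ := Metric.eventually_nhds_iff.1 h2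
      have h4 : F (x₀ + ε / 2) < a := h3 (by
        rw [Real.dist_eq, add_sub_cancel_left, abs_of_pos (by linarith)]; linarith)
      have h5 : x₀ + ε / 2 ≤ x₀ := le_csSup hbdd (show F (x₀ + ε / 2) ≤ a from h4.le)
      linarith
    have heq : F x₀ = a := le_antisymm hmem hge
    rw [hI, ← ofReal_cdf μ x₀, ← hF, heq]
  · rw [not_nonempty_iff_eq_empty] at hne
    rw [hne, measure_empty, eq_comm, ENNReal.ofReal_eq_zero]
    have h2 : ∀ x, a ≤ F x := by
      intro x
      by_contra hlt
      push Not at hlt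
      have h3 : x ∈ F ⁻¹' Iic a := hlt.le
      rw [hne] at h3
      exact h3
    exact ge_of_tendsto' (tendsto_cdf_atBot μ) h2

/-- null for every atomless `σ`-finite Borel measure -/
def UN (S : Set ℝ) : Prop := ∀ μ : Measure ℝ, SFinite μ → (∀ x, μ {x} = 0) → μ S = 0

theorem UN.mono {S S' : Set ℝ} (h : UN S') (hS : S ⊆ S') : UN S :=
  fun μ h1 h2 => measure_mono_null hS (h μ h1 h2)

theorem UN.iUnion {ι : Type} [Countable ι] {S : ι → Set ℝ} (h : ∀ i, UN (S i)) : UN (⋃ i, S i) :=
  fun μ h1 h2 => measure_iUnion_null fun i => h i μ h1 h2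

theorem UN.countable {S : Set ℝ} (h : S.Countable) : UN S := fun μ _ h2 => by
  haveI : NullSingletonClass μ := ⟨h2⟩
  exact h.measure_zero μ

theorem null_small_prob (hB : ∀ E : Set Om, #E < 𝔠 → nu 2 E = 0) {S : Set ℝ} (hS : #S < 𝔠)
    (μ : Measure ℝ) [IsProbabilityMeasure μ] [NullSingletonClass μ] : μ S = 0 := by
  have hm : Measurable (cdf μ) := (monotone_cdf μ).measurable
  have hmp : MeasurePreserving (cdf μ) μ (volume.restrict (Ioc (0 : ℝ) 1)) := ⟨hm, map_cdf μ⟩
  have h1 : (volume.restrict (Ioc (0 : ℝ) 1)) (cdf μ '' S) = 0 := by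
    rw [← Measure.restrict_congr_set (Ico_ae_eq_Ioc (μ := (volume : Measure ℝ)) (a := (0:ℝ)) (b := 1))]
    have h2 : nu 2 ((fun x : ℝ => Real.digits x 2) '' (cdf μ '' S)) = 0 := by
      apply hB
      exact (Cardinal.mk_image_le.trans Cardinal.mk_image_le).trans_lt hS
    exact measure_mono_null (subset_preimage_image _ _)
      ((mp_digits 2).quasiMeasurePreserving.preimage_null h2)
  exact measure_mono_null (subset_preimage_image _ _)
    (hmp.quasiMeasurePreserving.preimage_null h1)

theorem UN.small (hB : ∀ E : Set Om, #E < 𝔠 → nu 2 E = 0) {S : Set ℝ} (hS : #S < 𝔠) : UN S := by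
  intro μ h1 h2
  obtain ⟨ν, hν, hμν, hνμ⟩ := exists_isFiniteMeasure_absolutelyContinuous μ
  haveI : NullSingletonClass ν := ⟨fun x => hνμ (h2 x)⟩
  apply hμν
  rcases eq_or_ne ν 0 with h0 | h0
  · rw [h0]; simp
  haveI : NeZero ν := ⟨h0⟩
  have h3 : IsProbabilityMeasure ((ν Set.univ)⁻¹ • ν) := isProbabilityMeasureSMul
  haveI : NullSingletonClass ((ν Set.univ)⁻¹ • ν) := ⟨fun x => by
    rw [Measure.smul_apply, measure_singleton, smul_zero]⟩
  have h4 := null_small_prob hB hS ((ν Set.univ)⁻¹ • ν)
  rw [Measure.smul_apply, smul_eq_mul, mul_eq_zero] at h4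
  rcases h4 with h5 | h5
  · exact absurd h5 (ENNReal.inv_ne_zero.2 (measure_ne_top _ _))
  · exact h5

/-- images under affine maps -/
theorem UN.affine {S : Set ℝ} (h : UN S) (a t : ℝ) (ha : a ≠ 0) : UN ((fun x => a * x + t) '' S) := by
  intro μ h1 h2
  let e : ℝ ≃ᵐ ℝ := (MeasurableEquiv.mulLeft₀ a ha).trans (MeasurableEquiv.addRight t)
  have he : (fun x => a * x + t) '' S = e '' S := rfl
  have hna : ∀ x, (μ.map e.symm) {x} = 0 := fun x => by
    rw [MeasurableEquiv.map_apply]
    have : e.symm ⁻¹' {x} = {e x} := by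
      ext y
      simp only [mem_preimage, mem_singleton_iff]
      constructor
      · rintro rfl; simp
      · rintro rfl; simp
    rw [this, h2]
  have h3 := h (μ.map e.symm) inferInstance hna
  rw [MeasurableEquiv.map_apply] at h3
  rw [he, e.image_eq_preimage_symm]
  exact h3

end Pool.Agent.Y508.TN
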